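import Pool.Agent.H88.RS.Elec

set_option autoImplicit false

namespace Pool.Agent.H88.RS

open Finset

lemma resistance_eq' {V : Type*} [Fintype V] {G : SimpleGraph V} (hG : G.Connected) {u v : V}
    {x : V → ℝ} (hx : IsVoltage G u v x) : resistance G u v = x u - x v := by
  classical
  exact resistance_eq hG hx

lemma bip_connected {m n : ℕ} (hm : 0 < m) (hn : 0 < n) :
    (completeBipartiteGraph (Fin m) (Fin n)).Connected := by
  have adj : ∀ (i : Fin m) (j : Fin n),
      (completeBipartiteGraph (Fin m) (Fin n)).Adj (Sum.inl i) (Sum.inr j) := by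
    intro i j; simp [completeBipartiteGraph]
  have : Nonempty (Fin m ⊕ Fin n) := ⟨Sum.inl ⟨0, hm⟩⟩
  refine SimpleGraph.Connected.mk ?_
  have h1 : ∀ v, (completeBipartiteGraph (Fin m) (Fin n)).Reachable (Sum.inl ⟨0, hm⟩) v := by
    rintro (i | j)
    · exact (adj ⟨0, hm⟩ ⟨0, hn⟩).reachable.trans (adj i ⟨0, hn⟩).symm.reachable
    · exact (adj ⟨0, hm⟩ j).reachable
  intro u v
  exact (h1 u).symm.trans (h1 v)

lemma res_LL {m n : ℕ} (hm : 0 < m) (hn : 0 < n) (i j : Fin m) :
    resistance (completeBipartiteGraph (Fin m) (Fin n)) (Sum.inl i) (Sum.inl j)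
      = if i = j then 0 else 2 / (n : ℝ) := by
  have hn' : (n : ℝ) ≠ 0 := by positivity
  rw [resistance_eq' (bip_connected hm hn) (x := Sum.elim
    (fun k => (if k = i then 1 / (n : ℝ) else 0) - (if k = j then 1 / (n : ℝ) else 0))
    (fun _ => 0))]
  · by_cases h : i = j
    · simp [h]
    · simp [h, Ne.symm h]; ring
  · rintro (k | l)
    · simp only [Fintype.sum_sum_type, completeBipartiteGraph, Sum.elim_inl, Sum.elim_inr,
        Sum.isLeft_inl, Sum.isRight_inl, Sum.isLeft_inr, Sum.isRight_inr, Sum.inl.injEq]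
      simp
      split_ifs <;> field_simp
    · simp [Fintype.sum_sum_type, completeBipartiteGraph]

lemma res_RR {m n : ℕ} (hm : 0 < m) (hn : 0 < n) (i j : Fin n) :
    resistance (completeBipartiteGraph (Fin m) (Fin n)) (Sum.inr i) (Sum.inr j)
      = if i = j then 0 else 2 / (m : ℝ) := by
  have hm' : (m : ℝ) ≠ 0 := by positivity
  rw [resistance_eq' (bip_connected hm hn) (x := Sum.elim (fun _ => 0)
    (fun k => (if k = i then 1 / (m : ℝ) else 0) - (if k = j then 1 / (m : ℝ) else 0)))]
  · by_cases h : i = j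
    · simp [h]
    · simp [h, Ne.symm h]; ring
  · rintro (k | l)
    · simp [Fintype.sum_sum_type, completeBipartiteGraph]
    · simp only [Fintype.sum_sum_type, completeBipartiteGraph, Sum.elim_inl, Sum.elim_inr,
        Sum.isLeft_inl, Sum.isRight_inl, Sum.isLeft_inr, Sum.isRight_inr, Sum.inr.injEq]
      simp
      split_ifs <;> field_simp

lemma res_LR {m n : ℕ} (hm : 0 < m) (hn : 0 < n) (i : Fin m) (j : Fin n) :
    resistance (completeBipartiteGraph (Fin m) (Fin n)) (Sum.inl i) (Sum.inr j)
      = ((m : ℝ) + n - 1) / (m * n) := by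
  have hn' : (n : ℝ) ≠ 0 := by positivity
  have hm' : (m : ℝ) ≠ 0 := by positivity
  rw [resistance_eq' (bip_connected hm hn) (x := Sum.elim
    (fun k => (n - 1) / ((m : ℝ) * n) + (if k = i then 1 / (n : ℝ) else 0))
    (fun k => 1 / (m : ℝ) - (if k = j then 1 / (m : ℝ) else 0)))]
  · simp; field_simp; ring
  · rintro (k | l)
    · simp only [Fintype.sum_sum_type, completeBipartiteGraph, Sum.elim_inl, Sum.elim_inr,
        Sum.isLeft_inl, Sum.isRight_inl, Sum.isLeft_inr, Sum.isRight_inr, Sum.inl.injEq]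
      simp [Finset.sum_sub_distrib]
      split_ifs <;> field_simp <;> ring
    · simp only [Fintype.sum_sum_type, completeBipartiteGraph, Sum.elim_inl, Sum.elim_inr,
        Sum.isLeft_inl, Sum.isRight_inl, Sum.isLeft_inr, Sum.isRight_inr, Sum.inr.injEq]
      simp [Finset.sum_sub_distrib, Finset.sum_add_distrib]
      split_ifs <;> field_simp <;> ring

end Pool.Agent.H88.RS
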