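import Pool.Agent.H88.RS.Core

set_option autoImplicit false

namespace Pool.Agent.H88.RS

open Finset

variable {V : Type*} [Fintype V] [DecidableEq V]
variable {G : SimpleGraph V} [DecidableRel G.Adj] {m n s : ℤ} {M : V → V → ℤ} {t : V → ℤ}

lemma sq_aux {a b : ℤ} (ha : 0 ≤ a) (hb : 2 ≤ b) (h : b * b - b ≤ a * a - a) : b ≤ a := by
  by_contra hlt
  push Not at hlt
  nlinarith [mul_pos (sub_pos.2 hlt) (show 0 < a + b - 1 by linarith)]

/-- no vertex with partners of both types: the graph is complete bipartite -/
lemma Data.final (D : Data G m n s M t) 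
    (hcard : (Fintype.card V : ℤ) = m + n)
    (hα : (((univ : Finset V).offDiag.filter fun p => M p.1 p.2 = -(s + 1)).card : ℤ) = m * m - m)
    (hβ : (((univ : Finset V).offDiag.filter fun p => M p.1 p.2 = s - 1).card : ℤ) = n * n - n)
    (hmix : ∀ v w w', M v w = -(s + 1) → M v w' = s - 1 → False) :
    ∃ A : Finset V, (A.card : ℤ) = m ∧ ∀ u v, G.Adj u v ↔ (u ∈ A ∧ v ∉ A) ∨ (u ∉ A ∧ v ∈ A) := by
  have hs := D.hs
  have hn := D.hn
  have hm := D.hm
  subst hm
  set P := (univ : Finset V).offDiag.filter fun p => M p.1 p.2 = -(s + 1) with hP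
  set Q := (univ : Finset V).offDiag.filter fun p => M p.1 p.2 = s - 1 with hQ
  set A := (univ : Finset V).filter fun v => ∃ w, M v w = -(s + 1) with hA
  set B := (univ : Finset V).filter fun v => ∃ w, M v w = s - 1 with hB
  have hPA : P ⊆ A.offDiag := by
    intro p hp
    simp only [hP, mem_filter, mem_offDiag, mem_univ, true_and] at hp
    simp only [mem_offDiag, hA, mem_filter, mem_univ, true_and]
    exact ⟨⟨_, hp.2⟩, ⟨p.1, by rw [D.symm]; exact hp.2⟩, hp.1⟩
  have hQB : Q ⊆ B.offDiag := by
    intro p hp
    simp only [hQ, mem_filter, mem_offDiag, mem_univ, true_and] at hp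
    simp only [mem_offDiag, hB, mem_filter, mem_univ, true_and]
    exact ⟨⟨_, hp.2⟩, ⟨p.1, by rw [D.symm]; exact hp.2⟩, hp.1⟩
  have hAB : Disjoint A B := by
    rw [Finset.disjoint_left]
    intro v hv hv'
    simp only [hA, hB, mem_filter, mem_univ, true_and] at hv hv'
    obtain ⟨w, hw⟩ := hv
    obtain ⟨w', hw'⟩ := hv'
    exact hmix v w w' hw hw'
  have cA : (A.offDiag.card : ℤ) = A.card * A.card - A.card := by
    rw [Finset.offDiag_card, Nat.cast_sub (Nat.le_mul_self _)]; push_cast; ring
  have cB : (B.offDiag.card : ℤ) = B.card * B.card - B.card := by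
    rw [Finset.offDiag_card, Nat.cast_sub (Nat.le_mul_self _)]; push_cast; ring
  have lA : n + s ≤ A.card := by
    apply sq_aux (by positivity) (by linarith)
    rw [← cA, ← hα]; exact_mod_cast Finset.card_le_card hPA
  have lB : n ≤ B.card := by
    apply sq_aux (by positivity) (by linarith)
    rw [← cB, ← hβ]; exact_mod_cast Finset.card_le_card hQB
  have lAB : (A.card : ℤ) + B.card ≤ n + s + n := by
    rw [← hcard, ← Nat.cast_add, ← Finset.card_union_of_disjoint hAB]
    exact_mod_cast Finset.card_le_univ _
  have eA : (A.card : ℤ) = n + s := by linarith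
  have eB : (B.card : ℤ) = n := by linarith
  have hP' : P = A.offDiag := by
    apply Finset.eq_of_subset_of_card_le hPA
    have : (A.offDiag.card : ℤ) ≤ P.card := by rw [cA, hα, eA]
    exact_mod_cast this
  have hQ' : Q = B.offDiag := by
    apply Finset.eq_of_subset_of_card_le hQB
    have : (B.offDiag.card : ℤ) ≤ Q.card := by rw [cB, hβ, eB]
    exact_mod_cast this
  have hABu : A ∪ B = univ := by
    rw [← Finset.card_eq_iff_eq_univ]
    have : ((A ∪ B).card : ℤ) = Fintype.card V := by
      rw [Finset.card_union_of_disjoint hAB, hcard]; push_cast; linarith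
    exact_mod_cast this
  have hB' : ∀ v, v ∉ A → v ∈ B := by
    intro v hv
    have : v ∈ A ∪ B := by rw [hABu]; exact mem_univ _
    rcases Finset.mem_union.1 this with h | h
    · exact absurd h hv
    · exact h
  have hA' : ∀ v, v ∈ B → v ∉ A := fun v hv hv' => (Finset.disjoint_left.1 hAB) hv' hv
  -- the values of M
  have mA : ∀ u v, u ∈ A → v ∈ A → u ≠ v → M u v = -(s + 1) := by
    intro u v hu hv huv
    have : (u, v) ∈ P := by rw [hP']; exact mem_offDiag.2 ⟨hu, hv, huv⟩
    exact (mem_filter.1 this).2
  have mB : ∀ u v, u ∈ B → v ∈ B → u ≠ v → M u v = s - 1 := by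
    intro u v hu hv huv
    have : (u, v) ∈ Q := by rw [hQ']; exact mem_offDiag.2 ⟨hu, hv, huv⟩
    exact (mem_filter.1 this).2
  have mAB : ∀ u v, u ∈ A → v ∈ B → M u v = 0 := by
    intro u v hu hv
    have huv : u ≠ v := by rintro rfl; exact hA' _ hv hu
    rcases D.vals u v huv with h | h | h
    · have : u ∈ B := by simp only [hB, mem_filter, mem_univ, true_and]; exact ⟨v, h⟩
      exact absurd hu (hA' _ this)
    · exact h
    · have : v ∈ A := by
        simp only [hA, mem_filter, mem_univ, true_and]; exact ⟨u, by rw [D.symm]; exact h⟩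
      exact absurd this (hA' _ hv)
  have mBA : ∀ u v, u ∈ B → v ∈ A → M u v = 0 := fun u v hu hv => by
    rw [D.symm]; exact mAB v u hv hu
  -- sums over neighbourhoods
  have sumA : ∀ v w, w ∈ A → ∑ u ∈ G.neighborFinset v, M u w
      = -(s + 1) * ((G.neighborFinset v).filter (· ∈ A)).card
        + (if G.Adj v w then 2 * (n + s) else 0) := by
    intro v w hw
    have e : ∀ u, M u w = (if u ∈ A then -(s + 1) else 0) + (if u = w then 2 * (n + s) else 0) := by
      intro u
      by_cases h1 : u = w
      · subst h1; rw [D.diag, if_pos hw, if_pos rfl]; linarith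
      · rw [if_neg h1]
        by_cases h2 : u ∈ A
        · rw [if_pos h2, mA u w h2 hw h1]; ring
        · rw [if_neg h2, mBA u w (hB' u h2) hw]; ring
    rw [Finset.sum_congr rfl fun u _ => e u, Finset.sum_add_distrib, ← Finset.sum_filter,
      Finset.sum_const, Finset.sum_ite_eq', nsmul_eq_mul]
    simp only [SimpleGraph.mem_neighborFinset]
    ring
  have sumB : ∀ v w, w ∈ B → ∑ u ∈ G.neighborFinset v, M u w
      = (s - 1) * ((G.neighborFinset v).filter (· ∈ B)).card
        + (if G.Adj v w then 2 * n else 0) := by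
    intro v w hw
    have e : ∀ u, M u w = (if u ∈ B then (s - 1) else 0) + (if u = w then 2 * n else 0) := by
      intro u
      by_cases h1 : u = w
      · subst h1; rw [D.diag, if_pos hw, if_pos rfl]; linarith
      · rw [if_neg h1]
        by_cases h2 : u ∈ B
        · rw [if_pos h2, mB u w h2 hw h1]; ring
        · have h3 : u ∈ A := by
            by_contra h4
            exact h2 (hB' u h4)
          rw [if_neg h2, mAB u w h3 hw]; ring
    rw [Finset.sum_congr rfl fun u _ => e u, Finset.sum_add_distrib, ← Finset.sum_filter,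
      Finset.sum_const, Finset.sum_ite_eq', nsmul_eq_mul]
    simp only [SimpleGraph.mem_neighborFinset]
    ring
  -- vertices of A
  have degA : ∀ v ∈ A, (G.degree v : ℤ) = n ∧ ∀ w ∈ A, ¬ G.Adj v w := by
    intro v hv
    set p : ℤ := (((G.neighborFinset v).filter (· ∈ A)).card : ℤ) with hp
    have h0 := D.rule v v
    rw [sumA v v hv, if_neg (G.irrefl), if_pos rfl, D.diag, ← hp] at h0
    have hw : ∀ w ∈ A, w ≠ v → -(s + 1) * p + (if G.Adj v w then 2 * (n + s) else 0)
        = (G.degree v : ℤ) * (-(s + 1)) + t v := by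
      intro w hw hwv
      have h1 := D.rule v w
      rw [sumA v w hw, if_neg hwv.symm, mA v w hv hw hwv.symm, ← hp] at h1
      linarith
    by_cases hex : ∃ w ∈ A, G.Adj v w
    · exfalso
      obtain ⟨w, hw1, hw2⟩ := hex
      have hwv : w ≠ v := by rintro rfl; exact G.irrefl hw2
      have h1 := hw w hw1 hwv
      rw [if_pos hw2] at h1
      -- all vertices of A other than v are adjacent to v
      have hall : ∀ x ∈ A, x ≠ v → G.Adj v x := by
        intro x hx hxv
        by_contra hna
        have h2 := hw x hx hxv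
        rw [if_neg hna] at h2
        linarith
      have hd : (G.degree v : ℤ) = n - 1 := by
        have : 2 * (n + s) * ((G.degree v : ℤ) - (n - 1)) = 0 := by
          linarith
        have h2m : (2 * (n + s) : ℤ) ≠ 0 := by linarith
        have := (mul_eq_zero.1 this).resolve_left h2m
        linarith
      have hsub : A.erase v ⊆ G.neighborFinset v := by
        intro x hx
        rw [Finset.mem_erase] at hx
        exact (G.mem_neighborFinset v x).2 (hall x hx.2 hx.1)
      have hc := Finset.card_le_card hsub
      rw [Finset.card_erase_of_mem hv, G.card_neighborFinset_eq_degree] at hc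
      have : (A.card : ℤ) ≤ G.degree v + 1 := by
        have : A.card ≤ G.degree v + 1 := by omega
        exact_mod_cast this
      linarith
    · push Not at hex
      refine ⟨?_, hex⟩
      have hp0 : p = 0 := by
        rw [hp, Nat.cast_eq_zero, Finset.card_eq_zero, Finset.filter_eq_empty_iff]
        intro x hx hxA
        exact hex x hxA ((G.mem_neighborFinset v x).1 hx)
      obtain ⟨w, hw1, hwv⟩ : ∃ w ∈ A, w ≠ v := by
        have : 1 < A.card := by
          have : (1 : ℤ) < A.card := by linarith
          exact_mod_cast this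
        exact Finset.exists_mem_ne this v
      have h1 := hw w hw1 hwv
      rw [if_neg (hex w hw1)] at h1
      rw [hp0] at h0 h1
      have : 2 * (n + s) * ((G.degree v : ℤ) - n) = 0 := by
        linarith
      have h2m : (2 * (n + s) : ℤ) ≠ 0 := by linarith
      have := (mul_eq_zero.1 this).resolve_left h2m
      linarith
  have crossA : ∀ v ∈ A, ∀ w ∈ B, G.Adj v w := by
    intro v hv w hw
    have hsub : G.neighborFinset v ⊆ B := by
      intro x hx
      apply hB'
      intro hxA
      exact (degA v hv).2 x hxA ((G.mem_neighborFinset v x).1 hx)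
    have : G.neighborFinset v = B := by
      apply Finset.eq_of_subset_of_card_le hsub
      have h1 := (degA v hv).1
      rw [G.card_neighborFinset_eq_degree]
      have : (B.card : ℤ) ≤ G.degree v := by linarith
      exact_mod_cast this
    rw [← G.mem_neighborFinset, this]; exact hw
  have nonB : ∀ v ∈ B, ∀ w ∈ B, ¬ G.Adj v w := by
    intro v hv w hw hvw
    have hwv : v ≠ w := G.ne_of_adj hvw
    set q : ℤ := (((G.neighborFinset v).filter (· ∈ B)).card : ℤ) with hq
    have h0 := D.rule v v
    rw [sumB v v hv, if_neg (G.irrefl), if_pos rfl, D.diag, ← hq] at h0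
    have h1 := D.rule v w
    rw [sumB v w hw, if_neg hwv, mB v w hv hw hwv, if_pos hvw, ← hq] at h1
    have hd : (G.degree v : ℤ) = n + s - 1 := by
      have : 2 * n * ((G.degree v : ℤ) - (n + s - 1)) = 0 := by
        linarith
      have h2n : (2 * n : ℤ) ≠ 0 := by linarith
      have := (mul_eq_zero.1 this).resolve_left h2n
      linarith
    have hsub : A ⊆ G.neighborFinset v := by
      intro x hx
      exact (G.mem_neighborFinset v x).2 ((crossA x hx v hv).symm)
    have hc := Finset.card_le_card hsub
    rw [G.card_neighborFinset_eq_degree] at hc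
    have : (A.card : ℤ) ≤ G.degree v := by exact_mod_cast hc
    linarith
  refine ⟨A, eA, ?_⟩
  intro u v
  constructor
  · intro huv
    by_cases hu : u ∈ A
    · exact Or.inl ⟨hu, fun hv => (degA u hu).2 v hv huv⟩
    · refine Or.inr ⟨hu, ?_⟩
      by_contra hv
      exact nonB u (hB' u hu) v (hB' v hv) huv
  · rintro (⟨hu, hv⟩ | ⟨hu, hv⟩)
    · exact crossA u hu v (hB' v hv)
    · exact (crossA v hv u (hB' u hu)).symm

end Pool.Agent.H88.RS
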