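import Pool.Agent.H88.RS.Bip
import Pool.Agent.H88.RS.Final

set_option autoImplicit false

namespace Pool.Agent.H88.RS

open Finset

/-- The resistance spectrum: the multiset of the resistances of all ordered pairs of distinct
vertices (each unordered pair is counted twice). -/
noncomputable def spectrum {V : Type*} [Fintype V] (G : SimpleGraph V) : Multiset ℝ :=
  open Classical in
  (univ : Finset V).offDiag.val.map fun p => resistance G p.1 p.2

section
variable {V : Type*} [Fintype V] [DecidableEq V] {G : SimpleGraph V}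

lemma spectrum_eq : spectrum G = (univ : Finset V).offDiag.val.map
    fun p => resistance G p.1 p.2 := by
  unfold spectrum
  congr!

lemma count_spectrum (r : ℝ) : (spectrum G).count r
    = (((univ : Finset V).offDiag.filter fun p => resistance G p.1 p.2 = r)).card := by
  classical
  rw [spectrum_eq, Multiset.count_map]
  rw [Finset.card_def, Finset.filter_val]
  congr 1
  apply Multiset.filter_congr
  intro x _
  exact eq_comm

lemma card_spectrum : (spectrum G).card = Fintype.card V * Fintype.card V - Fintype.card V := by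
  rw [spectrum_eq, Multiset.card_map, ← Finset.card_def, Finset.offDiag_card, Finset.card_univ]

lemma mem_spectrum {r : ℝ} : r ∈ spectrum G ↔ ∃ u v, u ≠ v ∧ resistance G u v = r := by
  rw [spectrum_eq, Multiset.mem_map]
  constructor
  · rintro ⟨⟨u, v⟩, h, rfl⟩
    rw [Finset.mem_val, Finset.mem_offDiag] at h
    exact ⟨u, v, h.2.2, rfl⟩
  · rintro ⟨u, v, h, rfl⟩
    exact ⟨(u, v), by rw [Finset.mem_val, Finset.mem_offDiag]; simp [h], rfl⟩

end

section bip
variable {m n : ℕ}

lemma ne1 (hn : 1 ≤ n) (h : n + 2 ≤ m) : (2 : ℝ) / m ≠ 2 / n := by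
  have hn' : (0 : ℝ) < n := by exact_mod_cast hn
  have hm' : (n : ℝ) + 2 ≤ m := by exact_mod_cast h
  rw [Ne, div_eq_div_iff (by linarith) (by linarith)]
  intro e; linarith

lemma ne2 (hn : 1 ≤ n) (h : n + 2 ≤ m) : (2 : ℝ) / m ≠ (m + n - 1) / (m * n) := by
  have hn' : (0 : ℝ) < n := by exact_mod_cast hn
  have hm' : (n : ℝ) + 2 ≤ m := by exact_mod_cast h
  have hm0 : (0 : ℝ) < m := by linarith
  rw [Ne, div_eq_div_iff (by linarith) (by positivity)]
  intro e
  have : (m : ℝ) * (m - n - 1) = 0 := by linarith
  rcases mul_eq_zero.1 this with h | h <;> linarith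

lemma ne3 (hn : 1 ≤ n) (h : n + 2 ≤ m) : (2 : ℝ) / n ≠ (m + n - 1) / (m * n) := by
  have hn' : (0 : ℝ) < n := by exact_mod_cast hn
  have hm' : (n : ℝ) + 2 ≤ m := by exact_mod_cast h
  have hm0 : (0 : ℝ) < m := by linarith
  rw [Ne, div_eq_div_iff (by linarith) (by positivity)]
  intro e
  have : (n : ℝ) * (m - n + 1) = 0 := by linarith
  rcases mul_eq_zero.1 this with h | h <;> linarith

lemma res_symm {V : Type*} [Fintype V] {G : SimpleGraph V} (hG : G.Connected) (u v : V) :
    resistance G u v = resistance G v u := by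
  classical
  exact (exists_rule hG).1 u v

lemma res_RL (hm : 0 < m) (hn : 0 < n) (i : Fin n) (j : Fin m) :
    resistance (completeBipartiteGraph (Fin m) (Fin n)) (Sum.inr i) (Sum.inl j)
      = ((m : ℝ) + n - 1) / (m * n) := by
  rw [res_symm (bip_connected hm hn), res_LR hm hn]

lemma mem_bip (hn : 1 ≤ n) (h : n + 2 ≤ m) {r : ℝ}
    (hr : r ∈ spectrum (completeBipartiteGraph (Fin m) (Fin n))) :
    r = 2 / m ∨ r = 2 / n ∨ r = ((m : ℝ) + n - 1) / (m * n) := by
  obtain ⟨u, v, huv, rfl⟩ := mem_spectrum.1 hr
  rcases u with i | i <;> rcases v with j | j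
  · rw [res_LL (by omega) (by omega), if_neg (by rintro rfl; exact huv rfl)]; simp
  · rw [res_LR (by omega) (by omega)]; simp
  · rw [res_RL (by omega) (by omega)]; simp
  · rw [res_RR (by omega) (by omega), if_neg (by rintro rfl; exact huv rfl)]; simp

lemma count_beta (hn : 1 ≤ n) (h : n + 2 ≤ m) :
    (spectrum (completeBipartiteGraph (Fin m) (Fin n))).count ((2 : ℝ) / m) = n * n - n := by
  rw [count_spectrum]
  have e : ((univ : Finset (Fin m ⊕ Fin n)).offDiag.filter fun p =>
      resistance (completeBipartiteGraph (Fin m) (Fin n)) p.1 p.2 = (2 : ℝ) / m)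
      = ((univ : Finset (Fin n)).offDiag).map
        (Function.Embedding.prodMap Function.Embedding.inr Function.Embedding.inr) := by
    ext ⟨u, v⟩
    simp only [mem_filter, mem_offDiag, mem_univ, true_and, mem_map,
      Function.Embedding.coe_prodMap, Function.Embedding.inr_apply, Prod.exists, Prod.map_apply,
      Prod.mk.injEq]
    rcases u with i | i <;> rcases v with j | j
    · rw [res_LL (by omega) (by omega)]
      constructor
      · rintro ⟨h1, h2⟩
        rw [if_neg (by rintro rfl; exact h1 rfl)] at h2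
        exact absurd h2.symm (ne1 hn h)
      · rintro ⟨a, b, -, h1, -⟩; cases h1
    · rw [res_LR (by omega) (by omega)]
      constructor
      · rintro ⟨-, h2⟩; exact absurd h2.symm (ne2 hn h)
      · rintro ⟨a, b, -, h1, -⟩; cases h1
    · rw [res_RL (by omega) (by omega)]
      constructor
      · rintro ⟨-, h2⟩; exact absurd h2.symm (ne2 hn h)
      · rintro ⟨a, b, -, -, h1⟩; cases h1
    · rw [res_RR (by omega) (by omega)]
      constructor
      · rintro ⟨h1, -⟩
        exact ⟨i, j, by rintro rfl; exact h1 rfl, rfl, rfl⟩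
      · rintro ⟨a, b, hab, h1, h2⟩
        cases h1; cases h2
        refine ⟨by intro e; cases e; exact hab rfl, by rw [if_neg hab]⟩
  rw [e, Finset.card_map, Finset.offDiag_card, Finset.card_univ, Fintype.card_fin]

lemma count_alpha (hn : 1 ≤ n) (h : n + 2 ≤ m) :
    (spectrum (completeBipartiteGraph (Fin m) (Fin n))).count ((2 : ℝ) / n) = m * m - m := by
  rw [count_spectrum]
  have e : ((univ : Finset (Fin m ⊕ Fin n)).offDiag.filter fun p =>
      resistance (completeBipartiteGraph (Fin m) (Fin n)) p.1 p.2 = (2 : ℝ) / n)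
      = ((univ : Finset (Fin m)).offDiag).map
        (Function.Embedding.prodMap Function.Embedding.inl Function.Embedding.inl) := by
    ext ⟨u, v⟩
    simp only [mem_filter, mem_offDiag, mem_univ, true_and, mem_map,
      Function.Embedding.coe_prodMap, Function.Embedding.inl_apply, Prod.exists, Prod.map_apply,
      Prod.mk.injEq]
    rcases u with i | i <;> rcases v with j | j
    · rw [res_LL (by omega) (by omega)]
      constructor
      · rintro ⟨h1, -⟩
        exact ⟨i, j, by rintro rfl; exact h1 rfl, rfl, rfl⟩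
      · rintro ⟨a, b, hab, h1, h2⟩
        cases h1; cases h2
        refine ⟨by intro e; cases e; exact hab rfl, by rw [if_neg hab]⟩
    · rw [res_LR (by omega) (by omega)]
      constructor
      · rintro ⟨-, h2⟩; exact absurd h2.symm (ne3 hn h)
      · rintro ⟨a, b, -, -, h1⟩; cases h1
    · rw [res_RL (by omega) (by omega)]
      constructor
      · rintro ⟨-, h2⟩; exact absurd h2.symm (ne3 hn h)
      · rintro ⟨a, b, -, h1, -⟩; cases h1
    · rw [res_RR (by omega) (by omega)]
      constructor
      · rintro ⟨h1, h2⟩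
        rw [if_neg (by rintro rfl; exact h1 rfl)] at h2
        exact absurd h2 (ne1 hn h)
      · rintro ⟨a, b, -, h1, -⟩; cases h1
  rw [e, Finset.card_map, Finset.offDiag_card, Finset.card_univ, Fintype.card_fin]

lemma card_eq_aux {a b : ℕ} (hb : 2 ≤ b) (h : a * a - a = b * b - b) : a = b := by
  rcases Nat.lt_trichotomy a b with h1 | h1 | h1
  · have : (a : ℤ) * a - a = b * b - b := by
      have e1 : ((a * a - a : ℕ) : ℤ) = a * a - a := by
        rw [Nat.cast_sub (Nat.le_mul_self _)]; push_cast; ring
      have e2 : ((b * b - b : ℕ) : ℤ) = b * b - b := by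
        rw [Nat.cast_sub (Nat.le_mul_self _)]; push_cast; ring
      rw [← e1, ← e2, h]
    have hz : ((b : ℤ) - a) * (b + a - 1) = 0 := by linarith
    rcases mul_eq_zero.1 hz with h2 | h2 <;> omega
  · exact h1
  · have : (a : ℤ) * a - a = b * b - b := by
      have e1 : ((a * a - a : ℕ) : ℤ) = a * a - a := by
        rw [Nat.cast_sub (Nat.le_mul_self _)]; push_cast; ring
      have e2 : ((b * b - b : ℕ) : ℤ) = b * b - b := by
        rw [Nat.cast_sub (Nat.le_mul_self _)]; push_cast; ring
      rw [← e1, ← e2, h]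
    have hz : ((b : ℤ) - a) * (b + a - 1) = 0 := by linarith
    rcases mul_eq_zero.1 hz with h2 | h2 <;> omega

end bip

section
variable {V : Type*} [Fintype V] [DecidableEq V] {G : SimpleGraph V} [DecidableRel G.Adj]

/-- the integral data of a graph with the resistance spectrum of `K_{m,n}` -/
lemma exists_data (hG : G.Connected) {m n : ℕ} (hn : 2 ≤ n) (h : n + 2 ≤ m)
    (hsp : spectrum G = spectrum (completeBipartiteGraph (Fin m) (Fin n))) :
    ∃ (M : V → V → ℤ) (t : V → ℤ), Data G m n ((m : ℤ) - n) M t ∧
    (Fintype.card V : ℤ) = m + n ∧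
    (((univ : Finset V).offDiag.filter fun p => M p.1 p.2 = -(((m : ℤ) - n) + 1)).card : ℤ)
      = m * m - m ∧
    (((univ : Finset V).offDiag.filter fun p => M p.1 p.2 = ((m : ℤ) - n) - 1).card : ℤ)
      = n * n - n := by
  have hm0 : (0 : ℝ) < m := by exact_mod_cast (show 0 < m by omega)
  have hn0 : (0 : ℝ) < n := by exact_mod_cast (show 0 < n by omega)
  have hcard : Fintype.card V = m + n := by
    have := card_spectrum (G := G)
    rw [hsp, card_spectrum] at this
    simp only [Fintype.card_sum, Fintype.card_fin] at this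
    exact card_eq_aux (by omega) this.symm
  have hvals : ∀ u v, u ≠ v → resistance G u v = 2 / m ∨ resistance G u v = 2 / n ∨
      resistance G u v = ((m : ℝ) + n - 1) / (m * n) := by
    intro u v huv
    apply mem_bip (by omega) h
    rw [← hsp]
    exact mem_spectrum.2 ⟨u, v, huv, rfl⟩
  have hcβ := count_beta (m := m) (n := n) (by omega) h
  have hcα := count_alpha (m := m) (n := n) (by omega) h
  rw [← hsp, count_spectrum] at hcβ hcα
  obtain ⟨hsym, hzero, τ, hτ⟩ := exists_rule hG
  set M : V → V → ℤ := fun u v => if u = v then (m : ℤ) + n - 1 else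
    if resistance G u v = 2 / m then ((m : ℤ) - n) - 1 else
    if resistance G u v = 2 / n then -(((m : ℤ) - n) + 1) else 0 with hM
  have hMR : ∀ u v, (M u v : ℝ) = (m + n - 1) - m * n * resistance G u v := by
    intro u v
    simp only [hM]
    by_cases h1 : u = v
    · subst h1
      rw [if_pos rfl, hzero]; push_cast; ring
    · rw [if_neg h1]
      by_cases h2 : resistance G u v = 2 / m
      · rw [if_pos h2, h2]; push_cast; field_simp; ring
      · rw [if_neg h2]
        by_cases h3 : resistance G u v = 2 / n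
        · rw [if_pos h3, h3]; push_cast; field_simp; ring
        · rw [if_neg h3]
          have h4 := ((hvals u v h1).resolve_left h2).resolve_left h3
          rw [h4]; push_cast; field_simp; ring
  set t : V → ℤ := fun v => ∑ u ∈ G.neighborFinset v, M u v
    - (G.degree v : ℤ) * (m + n - 1) + 2 * m * n with ht
  have hsumM : ∀ v w, ((∑ u ∈ G.neighborFinset v, M u w : ℤ) : ℝ)
      = (G.degree v : ℝ) * M v w + m * n * τ v - (if v = w then 2 * m * n else 0) := by
    intro v w
    have h1 := hτ v w
    rw [Finset.sum_sub_distrib, Finset.sum_const, G.card_neighborFinset_eq_degree,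
      nsmul_eq_mul] at h1
    push_cast
    rw [Finset.sum_congr rfl fun u _ => hMR u w, Finset.sum_sub_distrib, Finset.sum_const,
      G.card_neighborFinset_eq_degree, nsmul_eq_mul, ← Finset.mul_sum, hMR]
    have h2 : ∑ x ∈ G.neighborFinset v, resistance G x w
      = (G.degree v : ℝ) * resistance G v w - τ v + (if v = w then 2 else 0) := by linarith
    rw [h2]
    split_ifs <;> ring
  have htτ : ∀ v, (t v : ℝ) = m * n * τ v := by
    intro v
    have h1 := hsumM v v
    rw [if_pos rfl] at h1
    have h2 : M v v = (m : ℤ) + n - 1 := by simp [hM]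
    rw [h2] at h1
    simp only [ht]
    push_cast at h1 ⊢
    linarith
  refine ⟨M, t, ⟨by omega, by exact_mod_cast hn, by ring, ?_, ?_, ?_, ?_⟩, ?_, ?_, ?_⟩
  · intro u v
    simp only [hM, hsym u v]
    by_cases h1 : u = v
    · simp [h1]
    · rw [if_neg h1, if_neg (Ne.symm h1)]
  · intro v; simp [hM]
  · intro u v huv
    simp only [hM, if_neg huv]
    split_ifs <;> simp
  · intro v w
    have h1 := hsumM v w
    rw [← htτ] at h1
    have : ((∑ u ∈ G.neighborFinset v, M u w : ℤ) : ℝ)
      = (((G.degree v : ℤ) * M v w + t v - (if v = w then 2 * m * n else 0) : ℤ) : ℝ) := by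
      rw [h1]; split_ifs <;> push_cast <;> ring
    exact_mod_cast this
  · exact_mod_cast hcard
  · have e : ((univ : Finset V).offDiag.filter fun p => M p.1 p.2 = -(((m : ℤ) - n) + 1))
      = ((univ : Finset V).offDiag.filter fun p => resistance G p.1 p.2 = 2 / n) := by
      apply Finset.filter_congr
      rintro ⟨u, v⟩ huv
      have huv' : u ≠ v := (mem_offDiag.1 huv).2.2
      simp only [hM, if_neg huv']
      constructor
      · intro h1
        by_contra h2
        rw [if_neg h2] at h1
        split_ifs at h1 <;> omega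
      · intro h1
        have h2 : resistance G u v ≠ 2 / m := by
          rw [h1]; exact (ne1 (by omega) h).symm
        rw [if_neg h2, if_pos h1]
    rw [e, hcα, Nat.cast_sub (Nat.le_mul_self _)]; push_cast; ring
  · have e : ((univ : Finset V).offDiag.filter fun p => M p.1 p.2 = ((m : ℤ) - n) - 1)
      = ((univ : Finset V).offDiag.filter fun p => resistance G p.1 p.2 = 2 / m) := by
      apply Finset.filter_congr
      rintro ⟨u, v⟩ huv
      have huv' : u ≠ v := (mem_offDiag.1 huv).2.2
      simp only [hM, if_neg huv']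
      constructor
      · intro h1
        by_contra h2
        rw [if_neg h2] at h1
        split_ifs at h1 <;> omega
      · intro h1
        rw [if_pos h1]
    rw [e, hcβ, Nat.cast_sub (Nat.le_mul_self _)]; push_cast; ring

/-- assembling the isomorphism -/
lemma iso_of_set {m n : ℕ} (hcard : (Fintype.card V : ℤ) = m + n) {A : Finset V}
    (hA : (A.card : ℤ) = m)
    (hadj : ∀ u v, G.Adj u v ↔ (u ∈ A ∧ v ∉ A) ∨ (u ∉ A ∧ v ∈ A)) :
    Nonempty (G ≃g completeBipartiteGraph (Fin m) (Fin n)) := by
  have cA : Fintype.card {v // v ∈ A} = m := by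
    rw [Fintype.card_coe]; exact_mod_cast hA
  have cB : Fintype.card {v // ¬ v ∈ A} = n := by
    rw [Fintype.card_subtype_compl, cA]
    omega
  let eA : {v // v ∈ A} ≃ Fin m := Fintype.equivFinOfCardEq cA
  let eB : {v // ¬ v ∈ A} ≃ Fin n := Fintype.equivFinOfCardEq cB
  let e : V ≃ Fin m ⊕ Fin n := (Equiv.sumCompl (fun v => v ∈ A)).symm.trans (Equiv.sumCongr eA eB)
  have e1 : ∀ v (hv : v ∈ A), e v = Sum.inl (eA ⟨v, hv⟩) := by
    intro v hv
    simp [e, Equiv.sumCompl_symm_apply_of_pos, hv]
  have e2 : ∀ v (hv : v ∉ A), e v = Sum.inr (eB ⟨v, hv⟩) := by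
    intro v hv
    simp [e, Equiv.sumCompl_symm_apply_of_neg, hv]
  refine ⟨⟨e, ?_⟩⟩
  intro u v
  rw [hadj]
  by_cases hu : u ∈ A <;> by_cases hv : v ∈ A
  · rw [e1 u hu, e1 v hv]; simp [completeBipartiteGraph, hu, hv]
  · rw [e1 u hu, e2 v hv]; simp [completeBipartiteGraph, hu, hv]
  · rw [e2 u hu, e1 v hv]; simp [completeBipartiteGraph, hu, hv]
  · rw [e2 u hu, e2 v hv]; simp [completeBipartiteGraph, hu, hv]

end

end Pool.Agent.H88.RS
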