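import Mathlib

set_option autoImplicit false

namespace Pool.Agent.H88.RS

open Finset

variable {V : Type*} [Fintype V] [DecidableEq V]

/-- Integral form of the local sum rules for resistances with three values. -/
structure Data (G : SimpleGraph V) [DecidableRel G.Adj] (m n s : ℤ) (M : V → V → ℤ)
    (t : V → ℤ) : Prop where
  hs : 2 ≤ s
  hn : 2 ≤ n
  hm : m = n + s
  symm : ∀ u v, M u v = M v u
  diag : ∀ v, M v v = m + n - 1
  vals : ∀ u v, u ≠ v → M u v = s - 1 ∨ M u v = 0 ∨ M u v = -(s + 1)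
  rule : ∀ v w, ∑ u ∈ G.neighborFinset v, M u w
    = (G.degree v : ℤ) * M v w + t v - (if v = w then 2 * m * n else 0)

/-- the exceptional differences -/
def Exc (n s : ℤ) : Prop :=
  ∃ k : ℤ, 0 ≤ k ∧ k * (s - 1) ≤ 2 * n ∧ 2 * n ≤ k * (s + 1) ∧ Even (k * (s + 1))

section
variable {G : SimpleGraph V} [DecidableRel G.Adj] {m n s : ℤ} {M : V → V → ℤ} {t : V → ℤ}

lemma Data.ne_of_alpha (D : Data G m n s M t) {v w : V} (h : M v w = -(s + 1)) : v ≠ w := by
  rintro rfl
  have := D.diag v; have := D.hs; have := D.hn; have := D.hm; omega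

lemma Data.ne_of_beta (D : Data G m n s M t) {v w : V} (h : M v w = s - 1) : v ≠ w := by
  rintro rfl
  have := D.diag v; have := D.hs; have := D.hn; have := D.hm; omega

lemma Data.lower (D : Data G m n s M t) (u w : V) : 0 ≤ M u w + (s + 1) := by
  have := D.hs; have := D.hn; have := D.hm
  by_cases h : u = w
  · subst h; rw [D.diag]; omega
  · rcases D.vals u w h with h | h | h <;> rw [h] <;> omega

lemma Data.upper (D : Data G m n s M t) {u w : V} (h : u ≠ w) : 0 ≤ (s - 1) - M u w := by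
  have := D.hs
  rcases D.vals u w h with h | h | h <;> rw [h] <;> omega

/-- sum of the distances from the lower bound at a pair of type alpha -/
lemma Data.sum_alpha (D : Data G m n s M t) {v w : V} (h : M v w = -(s + 1)) :
    ∑ u ∈ G.neighborFinset v, (M u w + (s + 1)) = t v := by
  have hne := D.ne_of_alpha h
  rw [Finset.sum_add_distrib, D.rule, if_neg hne, h, Finset.sum_const, G.card_neighborFinset_eq_degree,
    nsmul_eq_mul]
  ring

lemma Data.sum_beta (D : Data G m n s M t) {v w : V} (h : M v w = s - 1) :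
    ∑ u ∈ G.neighborFinset v, ((s - 1) - M u w) = - t v := by
  have hne := D.ne_of_beta h
  rw [Finset.sum_sub_distrib, D.rule, if_neg hne, h, Finset.sum_const, G.card_neighborFinset_eq_degree,
    nsmul_eq_mul]
  ring

lemma Data.alpha_nonneg (D : Data G m n s M t) {v w : V} (h : M v w = -(s + 1)) : 0 ≤ t v := by
  rw [← D.sum_alpha h]
  exact Finset.sum_nonneg fun u _ => D.lower u w

lemma Data.alpha_adj (D : Data G m n s M t) {v w : V} (h : M v w = -(s + 1)) (ha : G.Adj v w) :
    2 * m ≤ t v := by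
  rw [← D.sum_alpha h]
  have h1 := Finset.single_le_sum (f := fun u => M u w + (s + 1)) (s := G.neighborFinset v)
    (fun u _ => D.lower u w) (by simpa using ha : w ∈ G.neighborFinset v)
  simp only [D.diag] at h1
  have := D.hm
  omega

lemma Data.beta_nonadj (D : Data G m n s M t) {v w : V} (h : M v w = s - 1)
    (ha : ¬ G.Adj v w) : t v ≤ 0 := by
  have h1 := D.sum_beta h
  have h2 : 0 ≤ ∑ u ∈ G.neighborFinset v, ((s - 1) - M u w) := by
    refine Finset.sum_nonneg fun u hu => D.upper ?_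
    rintro rfl
    exact ha (by simpa using hu)
  omega

lemma Data.beta_adj_sum (D : Data G m n s M t) {v w : V} (h : M v w = s - 1)
    (ha : G.Adj v w) :
    ∑ u ∈ (G.neighborFinset v).erase w, ((s - 1) - M u w) = 2 * n - t v := by
  have h1 := D.sum_beta h
  have hw : w ∈ G.neighborFinset v := by simpa using ha
  rw [← Finset.add_sum_erase _ _ hw, D.diag] at h1
  have := D.hm
  linarith

/-- if some vertex has both an alpha partner and a beta partner, then some vertex has an
alpha partner and a beta neighbour -/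
lemma Data.exists_adj (D : Data G m n s M t) (hG : G.Preconnected) {v₀ w w' : V}
    (hα : M v₀ w = -(s + 1)) (hβ : M v₀ w' = s - 1) :
    ∃ v, G.Adj v w' ∧ ¬ G.Adj v w ∧ M v w = -(s + 1) ∧ M v w' = s - 1 := by
  have hs := D.hs
  have hn := D.hn
  have hm := D.hm
  obtain ⟨p⟩ := hG v₀ w
  obtain ⟨d, -, hd1, hd2⟩ := p.exists_boundary_dart {u | M u w = -(s + 1) ∧ M u w' = s - 1}
    ⟨hα, hβ⟩ (by
      rintro ⟨h1, -⟩
      exact D.ne_of_alpha h1 rfl)
  set v := d.fst with hv
  obtain ⟨h1, h2⟩ := hd1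
  have hadj : G.Adj v w' := by
    by_contra hna
    have ht := D.beta_nonadj h2 hna
    have ht' := D.alpha_nonneg h1
    have ht0 : t v = 0 := le_antisymm ht ht'
    apply hd2
    have hmem : d.snd ∈ G.neighborFinset v := (G.mem_neighborFinset v d.snd).2 d.adj
    refine ⟨?_, ?_⟩
    · have e := D.sum_alpha h1
      rw [ht0] at e
      have := (Finset.sum_eq_zero_iff_of_nonneg (fun u _ => D.lower u w)).1 e _ hmem
      linarith
    · have e := D.sum_beta h2
      rw [ht0, neg_zero] at e
      have := (Finset.sum_eq_zero_iff_of_nonneg (fun u hu => D.upper (u := u) (w := w') (by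
        rintro rfl
        exact hna (by simpa using hu)))).1 e _ hmem
      linarith
  refine ⟨v, hadj, ?_, h1, h2⟩
  intro hvw
  have h3 := D.alpha_adj h1 hvw
  have h4 := D.beta_adj_sum h2 hadj
  have h5 : 0 ≤ ∑ u ∈ (G.neighborFinset v).erase w', ((s - 1) - M u w') :=
    Finset.sum_nonneg fun u hu => D.upper (Finset.ne_of_mem_erase hu)
  omega

lemma Data.exc (D : Data G m n s M t) (hG : G.Preconnected) {v₀ w w' : V}
    (hα : M v₀ w = -(s + 1)) (hβ : M v₀ w' = s - 1) : Exc n s := by
  have hs := D.hs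
  have hn := D.hn
  have hm := D.hm
  obtain ⟨v, hadj, hnadj, h1, h2⟩ := D.exists_adj hG hα hβ
  have e1 := D.sum_alpha h1
  have e2 := D.beta_adj_sum h2 hadj
  have a1 : ∀ u ∈ G.neighborFinset v, ∃ k : ℤ, 0 ≤ k ∧ k * (s - 1) ≤ M u w + (s + 1) ∧
      M u w + (s + 1) ≤ k * (s + 1) ∧ Even (M u w + (s + 1) + k * (s + 1)) := by
    intro u hu
    have hne : u ≠ w := by
      rintro rfl
      exact hnadj (by simpa using hu)
    rcases D.vals u w hne with h | h | h
    · refine ⟨2, by norm_num, by rw [h]; linarith, by rw [h]; linarith, ?_⟩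
      rw [h]; exact ⟨2 * s + 1, by ring⟩
    · refine ⟨1, by norm_num, by rw [h]; linarith, by rw [h]; linarith, ?_⟩
      rw [h]; exact ⟨s + 1, by ring⟩
    · refine ⟨0, le_refl _, by rw [h]; linarith, by rw [h]; linarith, ?_⟩
      rw [h]; exact ⟨0, by ring⟩
  have a2 : ∀ u ∈ (G.neighborFinset v).erase w', ∃ k : ℤ, 0 ≤ k ∧
      k * (s - 1) ≤ (s - 1) - M u w' ∧
      (s - 1) - M u w' ≤ k * (s + 1) ∧ Even ((s - 1) - M u w' + k * (s + 1)) := by
    intro u hu
    have hne : u ≠ w' := Finset.ne_of_mem_erase hu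
    rcases D.vals u w' hne with h | h | h
    · refine ⟨0, le_refl _, by rw [h]; linarith, by rw [h]; linarith, ?_⟩
      rw [h]; exact ⟨0, by ring⟩
    · refine ⟨1, by norm_num, by rw [h]; linarith, by rw [h]; linarith, ?_⟩
      rw [h]; exact ⟨s, by ring⟩
    · refine ⟨2, by norm_num, by rw [h]; linarith, by rw [h]; linarith, ?_⟩
      rw [h]; exact ⟨2 * s + 1, by ring⟩
  choose! k1 hk1 using a1
  choose! k2 hk2 using a2
  refine ⟨∑ u ∈ G.neighborFinset v, k1 u + ∑ u ∈ (G.neighborFinset v).erase w', k2 u,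
    ?_, ?_, ?_, ?_⟩
  · exact add_nonneg (Finset.sum_nonneg fun u hu => (hk1 u hu).1)
      (Finset.sum_nonneg fun u hu => (hk2 u hu).1)
  · have b1 := Finset.sum_le_sum fun u hu => (hk1 u hu).2.1
    have b2 := Finset.sum_le_sum fun u hu => (hk2 u hu).2.1
    rw [e1, ← Finset.sum_mul] at b1
    rw [e2, ← Finset.sum_mul] at b2
    rw [add_mul]; linarith
  · have b1 := Finset.sum_le_sum fun u hu => (hk1 u hu).2.2.1
    have b2 := Finset.sum_le_sum fun u hu => (hk2 u hu).2.2.1
    rw [e1, ← Finset.sum_mul] at b1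
    rw [e2, ← Finset.sum_mul] at b2
    rw [add_mul]; linarith
  · have b1 : (2 : ℤ) ∣ ∑ u ∈ G.neighborFinset v, (M u w + (s + 1) + k1 u * (s + 1)) :=
      Finset.dvd_sum fun u hu => even_iff_two_dvd.1 (hk1 u hu).2.2.2
    have b2 : (2 : ℤ) ∣ ∑ u ∈ (G.neighborFinset v).erase w',
        ((s - 1) - M u w' + k2 u * (s + 1)) :=
      Finset.dvd_sum fun u hu => even_iff_two_dvd.1 (hk2 u hu).2.2.2
    rw [Finset.sum_add_distrib, e1, ← Finset.sum_mul] at b1
    rw [Finset.sum_add_distrib, e2, ← Finset.sum_mul] at b2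
    rw [even_iff_two_dvd, add_mul]
    omega

end

end Pool.Agent.H88.RS
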