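import Pool.Agent.H88.RS.Core

set_option autoImplicit false

namespace Pool.Agent.H88.RS

open Finset

section
variable {V : Type*} [Fintype V] [DecidableEq V]
variable {G : SimpleGraph V} [DecidableRel G.Adj] {m n s : ℤ} {M : V → V → ℤ} {t : V → ℤ}

/-- a vertex with an alpha partner and a beta neighbour -/
def Mixed (G : SimpleGraph V) (s : ℤ) (M : V → V → ℤ) (v x : V) : Prop :=
  (∃ w, M v w = -(s + 1)) ∧ G.Adj v x ∧ M v x = s - 1

lemma Data.t_le (D : Data G m n s M t) {v x : V} (h : Mixed G s M v x) : t v ≤ 2 * n := by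
  have h1 := D.beta_adj_sum h.2.2 h.2.1
  have h2 : 0 ≤ ∑ u ∈ (G.neighborFinset v).erase x, ((s - 1) - M u x) :=
    Finset.sum_nonneg fun u hu => D.upper (Finset.ne_of_mem_erase hu)
  omega

lemma Data.t_nonneg (D : Data G m n s M t) {v x : V} (h : Mixed G s M v x) : 0 ≤ t v := by
  obtain ⟨⟨w, hw⟩, -, -⟩ := h
  exact D.alpha_nonneg hw

/-- neighbours of a mixed vertex are beta or gamma neighbours -/
lemma Data.nbr_vals (D : Data G m n s M t) {v x : V} (h : Mixed G s M v x) {u : V}
    (hu : G.Adj v u) : M v u = s - 1 ∨ M v u = 0 := by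
  rcases D.vals v u (G.ne_of_adj hu) with h1 | h1 | h1
  · exact Or.inl h1
  · exact Or.inr h1
  · have h2 := D.alpha_adj h1 hu
    have h3 := D.t_le h
    have := D.hs; have := D.hn; have := D.hm
    omega

/-- a gamma neighbour of a mixed vertex has an alpha partner among the neighbours of that vertex -/
lemma Data.gamma_nbr (D : Data G m n s M t) {v x : V} (h : Mixed G s M v x) {z : V}
    (hz : G.Adj v z) (hz0 : M v z = 0) : ∃ y, M z y = -(s + 1) ∧ s + 1 ≤ t z := by
  have hs := D.hs
  have hn := D.hn
  have hm := D.hm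
  have h1 := D.rule v z
  rw [if_neg (G.ne_of_adj hz), hz0] at h1
  have hzm : z ∈ G.neighborFinset v := by simpa using hz
  rw [← Finset.add_sum_erase _ _ hzm, D.diag] at h1
  have h2 := D.t_le h
  have h3 : ∑ u ∈ (G.neighborFinset v).erase z, M u z < ∑ u ∈ (G.neighborFinset v).erase z, 0 := by
    rw [Finset.sum_const_zero]
    have : m + n - 1 + ∑ u ∈ (G.neighborFinset v).erase z, M u z = t v := by rw [h1]; ring
    omega
  obtain ⟨y, hy, hyz⟩ := Finset.exists_lt_of_sum_lt h3
  have hyne : y ≠ z := Finset.ne_of_mem_erase hy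
  have hya : G.Adj v y := by simpa using Finset.mem_of_mem_erase hy
  have hMy : M y z = -(s + 1) := by
    rcases D.vals y z hyne with h | h | h
    · omega
    · omega
    · exact h
  have hMy' : M z y = -(s + 1) := by rw [D.symm]; exact hMy
  refine ⟨y, hMy', ?_⟩
  rw [← D.sum_alpha hMy']
  have h4 := Finset.single_le_sum (f := fun u => M u y + (s + 1)) (s := G.neighborFinset z)
    (fun u _ => D.lower u y) (by simpa using hz.symm : v ∈ G.neighborFinset z)
  have h5 : 0 ≤ M v y := by
    rcases D.nbr_vals h hya with h | h <;> rw [h] <;> omega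
  omega

lemma Data.adj_of_pos (D : Data G m n s M t) {z x : V} (h : M z x = s - 1) (ht : 0 < t z) :
    G.Adj z x := by
  by_contra hna
  have := D.beta_nonadj h hna
  omega

/-- the degree identity -/
lemma Data.deg_eq (D : Data G m n s M t) {v x : V} (h : Mixed G s M v x) :
    (((G.neighborFinset v).filter fun u => M v u = s - 1).card : ℤ)
      + ((G.neighborFinset v).filter fun u => M v u = 0).card = G.degree v ∧
    2 * n * ((G.degree v : ℤ) + 1 - m) = (2 * n - t v)
      - (s - 1) * ((G.neighborFinset v).filter fun u => M v u = 0).card := by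
  have hs := D.hs
  have hn := D.hn
  have hm := D.hm
  have e1 : (((G.neighborFinset v).filter fun u => M v u = s - 1).card : ℤ)
      + ((G.neighborFinset v).filter fun u => M v u = 0).card = G.degree v := by
    rw [← G.card_neighborFinset_eq_degree, ← Nat.cast_add, ← Finset.card_union_of_disjoint]
    · congr 2
      ext u
      simp only [mem_union, mem_filter, SimpleGraph.mem_neighborFinset]
      constructor
      · rintro (h | h) <;> exact h.1
      · intro hu
        rcases D.nbr_vals h hu with h1 | h1
        · exact Or.inl ⟨hu, h1⟩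
        · exact Or.inr ⟨hu, h1⟩
    · rw [Finset.disjoint_left]
      intro u h1 h2
      have h1 := (mem_filter.1 h1).2
      have h2 := (mem_filter.1 h2).2
      omega
  refine ⟨e1, ?_⟩
  have h1 := D.rule v v
  rw [if_pos rfl, D.diag] at h1
  have h2 : ∑ u ∈ G.neighborFinset v, M u v
      = (s - 1) * ((G.neighborFinset v).filter fun u => M v u = s - 1).card := by
    have : ∀ u ∈ G.neighborFinset v, M u v = if M v u = s - 1 then s - 1 else 0 := by
      intro u hu
      rw [D.symm u v]
      rcases D.nbr_vals h (by simpa using hu) with h1 | h1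
      · rw [if_pos h1, h1]
      · rw [if_neg (by omega), h1]
    rw [Finset.sum_congr rfl this, ← Finset.sum_filter, Finset.sum_const, nsmul_eq_mul]
    ring
  rw [h2] at h1
  have e3 : (((G.neighborFinset v).filter fun u => M v u = s - 1).card : ℤ)
    = G.degree v - ((G.neighborFinset v).filter fun u => M v u = 0).card := by linarith
  rw [e3] at h1
  subst hm
  linear_combination (-1) * h1

/-- the neighbours of `v` which are not beta partners of a beta neighbour `x` -/
lemma Data.defect (D : Data G m n s M t) {v x : V} (hM : M v x = s - 1) (ha : G.Adj v x) :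
    (s - 1) * (((G.neighborFinset v).erase x).filter fun u => M u x ≠ s - 1).card
      ≤ 2 * n - t v := by
  have hs := D.hs
  rw [← D.beta_adj_sum hM ha, ← Finset.sum_filter_add_sum_filter_not _ (fun u => M u x ≠ s - 1)]
  have h1 : (s - 1) * (((G.neighborFinset v).erase x).filter fun u => M u x ≠ s - 1).card
      ≤ ∑ u ∈ ((G.neighborFinset v).erase x).filter (fun u => M u x ≠ s - 1),
        ((s - 1) - M u x) := by
    have := Finset.card_nsmul_le_sum (((G.neighborFinset v).erase x).filter fun u => M u x ≠ s - 1)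
      (fun u => (s - 1) - M u x) (s - 1) (by
        intro u hu
        obtain ⟨hu1, hu2⟩ := mem_filter.1 hu
        rcases D.vals u x (Finset.ne_of_mem_erase hu1) with h | h | h
        · exact absurd h hu2
        · rw [h]; omega
        · rw [h]; omega)
    rw [nsmul_eq_mul] at this
    linarith
  have h2 : 0 ≤ ∑ u ∈ ((G.neighborFinset v).erase x).filter (fun u => ¬ M u x ≠ s - 1),
        ((s - 1) - M u x) :=
    Finset.sum_nonneg fun u hu => D.upper (Finset.ne_of_mem_erase (mem_filter.1 hu).1)
  linarith

lemma count_lower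
    (hβ : (((univ : Finset V).offDiag.filter fun p => M p.1 p.2 = s - 1).card : ℤ) = n * n - n)
    (hd : ∀ u x, M u x = s - 1 → u ≠ x)
    (S : Finset V) (k : ℤ)
    (hk : ∀ x ∈ S, k ≤ (((univ : Finset V).filter fun u => M u x = s - 1).card : ℤ)) :
    (S.card : ℤ) * k ≤ n * n - n := by
  set Q := (univ : Finset V).offDiag.filter fun p => M p.1 p.2 = s - 1 with hQ
  have h1 : (Q.card : ℤ) = ∑ x ∈ (univ : Finset V), ((Q.filter fun p => p.2 = x).card : ℤ) := by
    have := Finset.card_eq_sum_card_fiberwise (s := Q) (t := (univ : Finset V))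
      (f := fun p => p.2) (fun _ _ => by simp)
    exact_mod_cast this
  have h2 : ∀ x ∈ S, k ≤ ((Q.filter fun p => p.2 = x).card : ℤ) := by
    intro x hx
    refine le_trans (hk x hx) ?_
    have : ((univ : Finset V).filter fun u => M u x = s - 1).card
        ≤ (Q.filter fun p => p.2 = x).card := by
      apply Finset.card_le_card_of_injOn (fun u => (u, x))
      · intro u hu
        have hu' : M u x = s - 1 := by simpa using hu
        simp only [hQ, coe_filter, mem_filter, mem_offDiag, mem_univ, true_and,
          Set.mem_ofPred_eq]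
        exact ⟨⟨hd u x hu', hu'⟩, trivial⟩
      · intro a _ b _ hab
        exact (Prod.mk.inj hab).1
    exact_mod_cast this
  rw [← hβ, h1]
  calc (S.card : ℤ) * k = ∑ x ∈ S, k := by rw [Finset.sum_const, nsmul_eq_mul]
    _ ≤ ∑ x ∈ S, ((Q.filter fun p => p.2 = x).card : ℤ) := Finset.sum_le_sum h2
    _ ≤ _ := Finset.sum_le_sum_of_subset_of_nonneg (Finset.subset_univ _)
        (fun _ _ _ => by positivity)

/-- in the range `s (s - 1) > 2 n` mixed vertices have degree at most `m - 2` -/
lemma Data.deg_le (D : Data G m n s M t)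
    (hβ : (((univ : Finset V).offDiag.filter fun p => M p.1 p.2 = s - 1).card : ℤ) = n * n - n)
    (hL : 2 * n < s * (s - 1)) {v x : V} (h : Mixed G s M v x) :
    (G.degree v : ℤ) ≤ m - 2 := by
  have hs := D.hs
  have hn := D.hn
  have hm := D.hm
  by_contra hlt
  push Not at hlt
  obtain ⟨e1, e2⟩ := D.deg_eq h
  have ht := D.t_nonneg h
  set b : ℤ := (((G.neighborFinset v).filter fun u => M v u = s - 1).card : ℤ) with hb
  set g : ℤ := (((G.neighborFinset v).filter fun u => M v u = 0).card : ℤ) with hg
  have hg1 : g ≤ s - 1 := by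
    by_contra hg1
    push Not at hg1
    have h1 : s * (s - 1) ≤ (s - 1) * g := by nlinarith
    have h2 : 0 ≤ 2 * n * ((G.degree v : ℤ) + 1 - m) :=
      mul_nonneg (by linarith) (by linarith)
    linarith
  have hbn : n ≤ b := by linarith
  have key := count_lower hβ (fun u x h => D.ne_of_beta h)
    ((G.neighborFinset v).filter fun u => M v u = s - 1) n (by
      intro x' hx'
      obtain ⟨hx1, hx2⟩ := mem_filter.1 hx'
      have hadj : G.Adj v x' := by simpa using hx1
      have h1 := D.defect hx2 hadj
      set q : ℤ := ((((G.neighborFinset v).erase x').filter fun u => M u x' ≠ s - 1).card : ℤ)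
        with hq
      have hq1 : q ≤ s - 1 := by
        by_contra hq1
        push Not at hq1
        have h2 : s * (s - 1) ≤ (s - 1) * q := by nlinarith
        linarith
      have h3 : (insert v (((G.neighborFinset v).erase x').filter fun u => ¬ M u x' ≠ s - 1))
          ⊆ (univ : Finset V).filter fun u => M u x' = s - 1 := by
        intro u hu
        rw [mem_insert] at hu
        rw [mem_filter]
        refine ⟨mem_univ _, ?_⟩
        rcases hu with hu | hu
        · rw [hu]; exact hx2
        · exact not_not.1 (mem_filter.1 hu).2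
      have h4 := Finset.card_le_card h3
      rw [Finset.card_insert_of_notMem (by
        intro hv
        have := Finset.mem_of_mem_erase (mem_filter.1 hv).1
        simp at this)] at h4
      have h5 := Finset.card_filter_add_card_filter_not (s := (G.neighborFinset v).erase x')
        (fun u => M u x' ≠ s - 1)
      rw [Finset.card_erase_of_mem hx1, G.card_neighborFinset_eq_degree] at h5
      have h6 : 1 ≤ G.degree v := by
        rw [← G.card_neighborFinset_eq_degree]
        exact Finset.card_pos.2 ⟨x', hx1⟩
      have h7 : q + ((((G.neighborFinset v).erase x').filter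
          fun u => ¬ M u x' ≠ s - 1).card : ℤ) = G.degree v - 1 := by
        rw [hq, ← Nat.cast_add, h5]; push_cast [h6]; ring
      have h8 : ((((G.neighborFinset v).erase x').filter
          fun u => ¬ M u x' ≠ s - 1).card : ℤ) + 1
          ≤ (((univ : Finset V).filter fun u => M u x' = s - 1).card : ℤ) := by exact_mod_cast h4
      linarith)
  nlinarith

lemma Data.key1 (D : Data G m n s M t) {v x : V} (h : Mixed G s M v x)
    (hd : (G.degree v : ℤ) ≤ m - 2) :
    (∃ z, G.Adj v z ∧ M v z = 0 ∧ M z x = s - 1) ∧ t x ≤ 0 := by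
  have hs := D.hs
  have hn := D.hn
  have hm := D.hm
  obtain ⟨e1, e2⟩ := D.deg_eq h
  set g : ℤ := (((G.neighborFinset v).filter fun u => M v u = 0).card : ℤ) with hg
  set Z := (G.neighborFinset v).filter fun u => M v u = 0 ∧ M u x = s - 1 with hZ
  set Z' := (G.neighborFinset v).filter fun u => M v u = 0 ∧ ¬ M u x = s - 1 with hZ'
  have hgs : g = Z.card + Z'.card := by
    have h5 := Finset.card_filter_add_card_filter_not
      (s := (G.neighborFinset v).filter fun u => M v u = 0) (fun u => M u x = s - 1)
    rw [Finset.filter_filter, Finset.filter_filter] at h5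
    rw [hg, ← h5]; push_cast; rfl
  have hxv : M x v = s - 1 := by rw [D.symm]; exact h.2.2
  have h1 : (s - 1) * (Z'.card : ℤ) ≤ 2 * n - t v := by
    refine le_trans ?_ (D.defect h.2.2 h.2.1)
    apply mul_le_mul_of_nonneg_left _ (by linarith)
    have : Z' ⊆ ((G.neighborFinset v).erase x).filter fun u => M u x ≠ s - 1 := by
      intro u hu
      obtain ⟨hu1, hu2, hu3⟩ := mem_filter.1 hu
      rw [mem_filter, mem_erase]
      refine ⟨⟨?_, hu1⟩, hu3⟩
      rintro rfl
      have := h.2.2
      omega
    exact_mod_cast Finset.card_le_card this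
  have h2 : (s - 1) * (Z.card : ℤ) ≤ 2 * n - t x := by
    refine le_trans ?_ (D.defect hxv h.2.1.symm)
    apply mul_le_mul_of_nonneg_left _ (by linarith)
    have : Z ⊆ ((G.neighborFinset x).erase v).filter fun u => M u v ≠ s - 1 := by
      intro u hu
      obtain ⟨hu1, hu2, hu3⟩ := mem_filter.1 hu
      have hu1' : G.Adj v u := by simpa using hu1
      obtain ⟨y, hy, hty⟩ := D.gamma_nbr h hu1' hu2
      have hux : G.Adj u x := D.adj_of_pos hu3 (by linarith)
      rw [mem_filter, mem_erase]
      refine ⟨⟨(G.ne_of_adj hu1').symm, by simpa using hux.symm⟩, ?_⟩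
      rw [D.symm, hu2]; omega
    exact_mod_cast Finset.card_le_card this
  have h3 : 2 * n ≤ 2 * n * (m - 1 - (G.degree v : ℤ)) := by
    have : 2 * n * 1 ≤ 2 * n * (m - 1 - (G.degree v : ℤ)) :=
      mul_le_mul_of_nonneg_left (by linarith) (by linarith)
    linarith
  have h4 : 2 * n ≤ (s - 1) * (Z.card : ℤ) := by
    have e3 : (s - 1) * g = (2 * n - t v) + 2 * n * (m - 1 - (G.degree v : ℤ)) := by
      linear_combination e2
    rw [hgs, mul_add] at e3
    linarith
  constructor
  · have : Z.Nonempty := by
      rw [← Finset.card_pos]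
      by_contra h0
      have : Z.card = 0 := by omega
      rw [this] at h4
      simp at h4
      omega
    obtain ⟨z, hz⟩ := this
    obtain ⟨hz1, hz2, hz3⟩ := mem_filter.1 hz
    exact ⟨z, by simpa using hz1, hz2, hz3⟩
  · linarith

lemma Data.t_pos (D : Data G m n s M t) {v x : V} (h : Mixed G s M v x)
    (hd : (G.degree v : ℤ) ≤ m - 2) : s + 1 ≤ t v := by
  have hs := D.hs
  obtain ⟨⟨z, hz1, hz2, hz3⟩, -⟩ := D.key1 h hd
  obtain ⟨y, hy, hty⟩ := D.gamma_nbr h hz1 hz2
  have hzx : G.Adj z x := D.adj_of_pos hz3 (by linarith)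
  have hmz : Mixed G s M z x := ⟨⟨y, hy⟩, hzx, hz3⟩
  obtain ⟨-, -, h2⟩ := D.gamma_nbr hmz hz1.symm (by rw [D.symm]; exact hz2)
  exact h2

lemma Data.no_alpha (D : Data G m n s M t)
    (hR : ∀ v x, Mixed G s M v x → (G.degree v : ℤ) ≤ m - 2)
    {v x : V} (h : Mixed G s M v x) (y : V) : M x y ≠ -(s + 1) := by
  intro hy
  have hs := D.hs
  have hmx : Mixed G s M x v := ⟨⟨y, hy⟩, h.2.1.symm, by rw [D.symm]; exact h.2.2⟩
  have h1 := D.t_pos hmx (hR _ _ hmx)
  have h2 := (D.key1 h (hR _ _ h)).2
  linarith

lemma Data.no_beta (D : Data G m n s M t)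
    (hR : ∀ v x, Mixed G s M v x → (G.degree v : ℤ) ≤ m - 2)
    {v x : V} (h : Mixed G s M v x) {z z' : V} (hz : G.Adj v z) (hz0 : M v z = 0)
    (hz' : G.Adj v z') (hz0' : M v z' = 0) : M z z' ≠ s - 1 := by
  intro hb
  have hs := D.hs
  obtain ⟨y, hy, hty⟩ := D.gamma_nbr h hz hz0
  obtain ⟨y', hy', hty'⟩ := D.gamma_nbr h hz' hz0'
  have hadj : G.Adj z z' := D.adj_of_pos hb (by linarith)
  have hm : Mixed G s M z z' := ⟨⟨y, hy⟩, hadj, hb⟩
  exact D.no_alpha hR hm y' hy'

/-- in the large range there are no mixed vertices -/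
lemma Data.large (D : Data G m n s M t)
    (hβ : (((univ : Finset V).offDiag.filter fun p => M p.1 p.2 = s - 1).card : ℤ) = n * n - n)
    (hL : 2 * n < s * (s - 1)) (hs2 : Even s ∨ 4 * (n - 1) < (s - 1) * (s - 1))
    {v x : V} (h : Mixed G s M v x) : False := by
  have hs := D.hs
  have hn := D.hn
  have hm := D.hm
  have hR : ∀ v x, Mixed G s M v x → (G.degree v : ℤ) ≤ m - 2 :=
    fun v x h => D.deg_le hβ hL h
  set b : ℤ := (((G.neighborFinset v).filter fun u => M v u = s - 1).card : ℤ) with hb
  set q : ℤ := ((((G.neighborFinset v).erase x).filter fun u => M u x ≠ s - 1).card : ℤ) with hq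
  -- the defect
  have h1 : 2 * n - t v = (s - 1) * q := by
    rw [← D.beta_adj_sum h.2.2 h.2.1]
    have : ∀ u ∈ (G.neighborFinset v).erase x, ((s - 1) - M u x)
        = if M u x ≠ s - 1 then s - 1 else 0 := by
      intro u hu
      rcases D.vals u x (Finset.ne_of_mem_erase hu) with h3 | h3 | h3
      · rw [if_neg (by simpa using h3), h3]; ring
      · rw [if_pos (by rw [h3]; omega), h3]; ring
      · exact absurd (by rw [D.symm]; exact h3) (D.no_alpha hR h u)
    rw [Finset.sum_congr rfl this, ← Finset.sum_filter, Finset.sum_const, nsmul_eq_mul]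
    ring
  -- the beta neighbours seen from an alpha partner
  have h2 : (s + 1) * b ≤ t v := by
    obtain ⟨w, hw⟩ := h.1
    rw [← D.sum_alpha hw, ← Finset.sum_filter_add_sum_filter_not _ (fun u => M v u = s - 1)]
    have h3 : (s + 1) * b ≤ ∑ u ∈ (G.neighborFinset v).filter (fun u => M v u = s - 1),
        (M u w + (s + 1)) := by
      have := Finset.card_nsmul_le_sum ((G.neighborFinset v).filter fun u => M v u = s - 1)
        (fun u => M u w + (s + 1)) (s + 1) (by
          intro u hu
          obtain ⟨hu1, hu2⟩ := mem_filter.1 hu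
          have hmu : Mixed G s M v u := ⟨h.1, by simpa using hu1, hu2⟩
          by_cases huw : u = w
          · subst huw; rw [D.diag]; omega
          · rcases D.vals u w huw with h4 | h4 | h4
            · rw [h4]; omega
            · rw [h4]; omega
            · exact absurd h4 (D.no_alpha hR hmu w))
      rw [nsmul_eq_mul] at this
      linarith
    have h4 : 0 ≤ ∑ u ∈ (G.neighborFinset v).filter (fun u => ¬ M v u = s - 1),
        (M u w + (s + 1)) := Finset.sum_nonneg fun u _ => D.lower u w
    linarith
  have hb1 : 1 ≤ b := by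
    have : 0 < ((G.neighborFinset v).filter fun u => M v u = s - 1).card :=
      Finset.card_pos.2 ⟨x, mem_filter.2 ⟨by simpa using h.2.1, h.2.2⟩⟩
    have : (0 : ℤ) < b := by rw [hb]; exact_mod_cast this
    linarith
  obtain ⟨⟨z, hz1, hz2, hz3⟩, -⟩ := D.key1 h (hR _ _ h)
  set β : ℤ := ((((G.neighborFinset v).erase z).filter fun u => M u z = s - 1).card : ℤ)
    with hβ'
  set a : ℤ := ((((G.neighborFinset v).erase z).filter fun u => M u z = -(s + 1)).card : ℤ)
    with ha
  have hsum : ∑ u ∈ (G.neighborFinset v).erase z, M u z = (s - 1) * β - (s + 1) * a := by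
    have : ∀ u ∈ (G.neighborFinset v).erase z, M u z
        = (if M u z = s - 1 then s - 1 else 0) - (if M u z = -(s + 1) then s + 1 else 0) := by
      intro u hu
      rcases D.vals u z (Finset.ne_of_mem_erase hu) with h3 | h3 | h3
      · rw [if_pos h3, if_neg (by omega), h3]; ring
      · rw [if_neg (by omega), if_neg (by omega), h3]; ring
      · rw [if_neg (by omega), if_pos h3, h3]; ring
    rw [Finset.sum_congr rfl this, Finset.sum_sub_distrib, ← Finset.sum_filter,
      ← Finset.sum_filter, Finset.sum_const, Finset.sum_const, nsmul_eq_mul, nsmul_eq_mul]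
    ring
  have hrule : (m + n - 1) + ((s - 1) * β - (s + 1) * a) = t v := by
    have h3 := D.rule v z
    rw [if_neg (G.ne_of_adj hz1), hz2] at h3
    have hzm : z ∈ G.neighborFinset v := by simpa using hz1
    rw [← Finset.add_sum_erase _ _ hzm, D.diag, hsum] at h3
    linarith
  have hβb : β ≤ b := by
    have : ((G.neighborFinset v).erase z).filter (fun u => M u z = s - 1)
        ⊆ (G.neighborFinset v).filter fun u => M v u = s - 1 := by
      intro u hu
      obtain ⟨hu1, hu2⟩ := mem_filter.1 hu
      have hu3 := Finset.mem_of_mem_erase hu1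
      have hu4 : G.Adj v u := by simpa using hu3
      rw [mem_filter]
      refine ⟨hu3, ?_⟩
      rcases D.nbr_vals h hu4 with h4 | h4
      · exact h4
      · exact absurd hu2 (D.no_beta hR h hu4 h4 hz1 hz2)
    rw [hβ', hb]
    exact_mod_cast Finset.card_le_card this
  have hβ0 : 0 ≤ β := by positivity
  have hq0 : 0 ≤ q := by positivity
  -- arithmetic
  have hK : (s + 1) * (β + 1 + q - a) = 2 * (β + 1 + q) := by
    subst hm
    linear_combination hrule - h1
  have he : 1 ≤ β + 1 + q - a := by
    by_contra hlt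
    push Not at hlt
    have : (s + 1) * (β + 1 + q - a) ≤ 0 :=
      mul_nonpos_of_nonneg_of_nonpos (by linarith) (by linarith)
    linarith
  have hsum2 : (s + 1) * b + (s - 1) * q ≤ 2 * n := by linarith
  rcases eq_or_lt_of_le he with he1 | he1
  · rw [← he1, mul_one] at hK
    rcases hs2 with hs2 | hs2
    · obtain ⟨r, hr⟩ := hs2
      omega
    · have h5 : s - 1 ≤ 2 * (b + q) := by linarith
      have h6 : (s - 1) * (s - 1) ≤ (s - 1) * (2 * (b + q)) :=
        mul_le_mul_of_nonneg_left h5 (by linarith)
      linarith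
  · have h5 : (s + 1) * 2 ≤ (s + 1) * (β + 1 + q - a) :=
      mul_le_mul_of_nonneg_left (by linarith) (by linarith)
    have h6 : s ≤ b + q := by linarith
    have h7 : (s - 1) * s ≤ (s - 1) * (b + q) :=
      mul_le_mul_of_nonneg_left h6 (by linarith)
    linarith

end

end Pool.Agent.H88.RS
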