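import Pool.Agent.H88.RS.Bridge
import Pool.Agent.H88.RS.Large

set_option autoImplicit false

namespace Pool.Agent.H88.RS

/-- `G` is determined by its resistance spectrum: every connected finite graph with the same
resistance spectrum is isomorphic to `G`. -/
def Determined {V : Type} [Fintype V] (G : SimpleGraph V) : Prop :=
  ∀ (W : Type) [Fintype W] (H : SimpleGraph W), H.Connected → spectrum H = spectrum G →
    Nonempty (H ≃g G)

lemma determined_of_not_exc {m n : ℕ} (hn : 2 ≤ n) (h : n + 2 ≤ m)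
    (hk : ¬ ∃ k : ℕ, k * (m - n - 1) ≤ 2 * n ∧ 2 * n ≤ k * (m - n + 1) ∧
      Even (k * (m - n + 1))) :
    Determined (completeBipartiteGraph (Fin m) (Fin n)) := by
  intro W _ H hH hsp
  classical
  obtain ⟨M, t, D, hcard, hα, hβ⟩ := exists_data hH hn h hsp
  obtain ⟨A, hA, hadj⟩ := D.final hcard hα hβ (by
    intro v w w' h1 h2
    obtain ⟨k, hk0, hk1, hk2, hk3⟩ := D.exc hH.preconnected h1 h2
    apply hk
    refine ⟨k.toNat, ?_, ?_, ?_⟩
    · zify [show n ≤ m by omega, show 1 ≤ m - n by omega]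
      rw [Int.toNat_of_nonneg hk0]; exact hk1
    · zify [show n ≤ m by omega]
      rw [Int.toNat_of_nonneg hk0]; exact hk2
    · have : Even ((k.toNat * (m - n + 1) : ℕ) : ℤ) := by
        push_cast [show n ≤ m by omega]
        rw [Int.toNat_of_nonneg hk0]; exact hk3
      exact_mod_cast this)
  exact iso_of_set hcard hA hadj

lemma determined_of_large {m n : ℕ} (hn : 2 ≤ n) (h : n + 2 ≤ m)
    (hL : 2 * n < (m - n) * (m - n - 1))
    (h2 : Even (m - n) ∨ 4 * (n - 1) < (m - n - 1) ^ 2) :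
    Determined (completeBipartiteGraph (Fin m) (Fin n)) := by
  intro W _ H hH hsp
  classical
  obtain ⟨M, t, D, hcard, hα, hβ⟩ := exists_data hH hn h hsp
  have e1 : ((m - n : ℕ) : ℤ) = (m : ℤ) - n := by push_cast [show n ≤ m by omega]; ring
  have e2 : ((m - n - 1 : ℕ) : ℤ) = (m : ℤ) - n - 1 := by
    push_cast [show n ≤ m by omega, show 1 ≤ m - n by omega]; ring
  have e3 : ((n - 1 : ℕ) : ℤ) = (n : ℤ) - 1 := by push_cast [show 1 ≤ n by omega]; ring
  have hL' : 2 * (n : ℤ) < ((m : ℤ) - n) * (((m : ℤ) - n) - 1) := by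
    rw [← e2, ← e1]; exact_mod_cast hL
  have h2' : Even ((m : ℤ) - n) ∨
      4 * ((n : ℤ) - 1) < (((m : ℤ) - n) - 1) * (((m : ℤ) - n) - 1) := by
    rcases h2 with h2 | h2
    · left; rw [← e1]; exact_mod_cast h2
    · right
      rw [pow_two] at h2
      rw [← e2, ← e3]; exact_mod_cast h2
  obtain ⟨A, hA, hadj⟩ := D.final hcard hα hβ (by
    intro v w w' h1 h2
    obtain ⟨v', ha, -, h3, h4⟩ := D.exists_adj hH.preconnected h1 h2
    exact D.large hβ hL' h2' (v := v') (x := w') ⟨⟨w, h3⟩, ha, h4⟩)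
  exact iso_of_set hcard hA hadj

end Pool.Agent.H88.RS
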