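import Pool.Agent.H88.RS.Large

set_option autoImplicit false

namespace Pool.Agent.H88.RS

open Finset

section
variable {V : Type*} [Fintype V] [DecidableEq V]
variable {G : SimpleGraph V} [DecidableRel G.Adj] {m n s : ℤ} {M : V → V → ℤ} {t : V → ℤ}

/-- the beta neighbours of a vertex -/
def betaNbr (G : SimpleGraph V) [DecidableRel G.Adj] (s : ℤ) (M : V → V → ℤ) (v : V) :
    Finset V := (G.neighborFinset v).filter fun u => M v u = s - 1

lemma mem_betaNbr {v u : V} : u ∈ betaNbr G s M v ↔ G.Adj v u ∧ M v u = s - 1 := by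
  simp [betaNbr]

/-- a gamma neighbour of a mixed vertex has an alpha partner among the neighbours of that vertex -/
lemma Data.gamma_nbr' (D : Data G m n s M t) {v x : V} (h : Mixed G s M v x) {z : V}
    (hz : G.Adj v z) (hz0 : M v z = 0) : ∃ y, G.Adj v y ∧ M z y = -(s + 1) := by
  have hs := D.hs
  have hn := D.hn
  have hm := D.hm
  have h1 := D.rule v z
  rw [if_neg (G.ne_of_adj hz), hz0] at h1
  have hzm : z ∈ G.neighborFinset v := by simpa using hz
  rw [← Finset.add_sum_erase _ _ hzm, D.diag] at h1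
  have h2 := D.t_le h
  have h3 : ∑ u ∈ (G.neighborFinset v).erase z, M u z < ∑ u ∈ (G.neighborFinset v).erase z, 0 := by
    rw [Finset.sum_const_zero]
    have : m + n - 1 + ∑ u ∈ (G.neighborFinset v).erase z, M u z = t v := by rw [h1]; ring
    omega
  obtain ⟨y, hy, hyz⟩ := Finset.exists_lt_of_sum_lt h3
  have hyne : y ≠ z := Finset.ne_of_mem_erase hy
  have hya : G.Adj v y := by simpa using Finset.mem_of_mem_erase hy
  have hMy : M y z = -(s + 1) := by
    rcases D.vals y z hyne with h | h | h
    · omega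
    · omega
    · exact h
  exact ⟨y, hya, by rw [D.symm]; exact hMy⟩

/-- the structure of a mixed vertex for odd `s` -/
lemma Data.odd_facts (D : Data G m n s M t)
    (hR : ∀ v x, Mixed G s M v x → (G.degree v : ℤ) ≤ m - 2)
    (hL : 2 * n < s * (s - 1)) (hodd : Odd s)
    {v x : V} (h : Mixed G s M v x) :
    ∃ q : ℤ, 0 ≤ q ∧ t v = 2 * n - (s - 1) * q ∧ 2 * ((betaNbr G s M v).card + q) = s - 1 ∧
      (s + 1) * (betaNbr G s M v).card ≤ t v ∧ 1 ≤ ((betaNbr G s M v).card : ℤ) ∧
      ∀ z, G.Adj v z → M v z = 0 → ∀ u ∈ betaNbr G s M v, M u z = s - 1 := by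
  have hs := D.hs
  have hn := D.hn
  have hm := D.hm
  obtain ⟨r, hr⟩ := hodd
  set b : ℤ := ((betaNbr G s M v).card : ℤ) with hb
  set q : ℤ := ((((G.neighborFinset v).erase x).filter fun u => M u x ≠ s - 1).card : ℤ) with hq
  -- the defect
  have h1 : 2 * n - t v = (s - 1) * q := by
    rw [← D.beta_adj_sum h.2.2 h.2.1]
    have : ∀ u ∈ (G.neighborFinset v).erase x, ((s - 1) - M u x)
        = if M u x ≠ s - 1 then s - 1 else 0 := by
      intro u hu
      rcases D.vals u x (Finset.ne_of_mem_erase hu) with h3 | h3 | h3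
      · rw [if_neg (by simpa using h3), h3]; ring
      · rw [if_pos (by rw [h3]; omega), h3]; ring
      · exact absurd (by rw [D.symm]; exact h3) (D.no_alpha hR h u)
    rw [Finset.sum_congr rfl this, ← Finset.sum_filter, Finset.sum_const, nsmul_eq_mul]
    ring
  -- the beta neighbours seen from an alpha partner
  have h2 : (s + 1) * b ≤ t v := by
    obtain ⟨w, hw⟩ := h.1
    rw [← D.sum_alpha hw, ← Finset.sum_filter_add_sum_filter_not _ (fun u => M v u = s - 1)]
    have h3 : (s + 1) * b ≤ ∑ u ∈ (G.neighborFinset v).filter (fun u => M v u = s - 1),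
        (M u w + (s + 1)) := by
      have := Finset.card_nsmul_le_sum ((G.neighborFinset v).filter fun u => M v u = s - 1)
        (fun u => M u w + (s + 1)) (s + 1) (by
          intro u hu
          obtain ⟨hu1, hu2⟩ := mem_filter.1 hu
          have hmu : Mixed G s M v u := ⟨h.1, by simpa using hu1, hu2⟩
          by_cases huw : u = w
          · subst huw; rw [D.diag]; omega
          · rcases D.vals u w huw with h4 | h4 | h4
            · rw [h4]; omega
            · rw [h4]; omega
            · exact absurd h4 (D.no_alpha hR hmu w))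
      rw [nsmul_eq_mul] at this
      rw [hb, betaNbr]
      linarith
    have h4 : 0 ≤ ∑ u ∈ (G.neighborFinset v).filter (fun u => ¬ M v u = s - 1),
        (M u w + (s + 1)) := Finset.sum_nonneg fun u _ => D.lower u w
    linarith
  have hb1 : 1 ≤ b := by
    have : 0 < (betaNbr G s M v).card :=
      Finset.card_pos.2 ⟨x, mem_betaNbr.2 ⟨h.2.1, h.2.2⟩⟩
    have : (0 : ℤ) < b := by rw [hb]; exact_mod_cast this
    linarith
  have hq0 : 0 ≤ q := by positivity
  have hsum2 : (s + 1) * b + (s - 1) * q ≤ 2 * n := by linarith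
  -- every gamma neighbour
  have hz : ∀ z, G.Adj v z → M v z = 0 →
      ((G.neighborFinset v).erase z).filter (fun u => M u z = s - 1) ⊆ betaNbr G s M v ∧
      2 * (((((G.neighborFinset v).erase z).filter fun u => M u z = s - 1).card : ℤ) + q)
        = s - 1 := by
    intro z hz1 hz2
    set β : ℤ := ((((G.neighborFinset v).erase z).filter fun u => M u z = s - 1).card : ℤ)
      with hβ'
    set a : ℤ := ((((G.neighborFinset v).erase z).filter fun u => M u z = -(s + 1)).card : ℤ)
      with ha
    have hsum : ∑ u ∈ (G.neighborFinset v).erase z, M u z = (s - 1) * β - (s + 1) * a := by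
      have : ∀ u ∈ (G.neighborFinset v).erase z, M u z
          = (if M u z = s - 1 then s - 1 else 0) - (if M u z = -(s + 1) then s + 1 else 0) := by
        intro u hu
        rcases D.vals u z (Finset.ne_of_mem_erase hu) with h3 | h3 | h3
        · rw [if_pos h3, if_neg (by omega), h3]; ring
        · rw [if_neg (by omega), if_neg (by omega), h3]; ring
        · rw [if_neg (by omega), if_pos h3, h3]; ring
      rw [Finset.sum_congr rfl this, Finset.sum_sub_distrib, ← Finset.sum_filter,
        ← Finset.sum_filter, Finset.sum_const, Finset.sum_const, nsmul_eq_mul, nsmul_eq_mul]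
      ring
    have hrule : (m + n - 1) + ((s - 1) * β - (s + 1) * a) = t v := by
      have h3 := D.rule v z
      rw [if_neg (G.ne_of_adj hz1), hz2] at h3
      have hzm : z ∈ G.neighborFinset v := by simpa using hz1
      rw [← Finset.add_sum_erase _ _ hzm, D.diag, hsum] at h3
      linarith
    have hsub : ((G.neighborFinset v).erase z).filter (fun u => M u z = s - 1)
          ⊆ betaNbr G s M v := by
      intro u hu
      obtain ⟨hu1, hu2⟩ := mem_filter.1 hu
      have hu3 := Finset.mem_of_mem_erase hu1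
      have hu4 : G.Adj v u := by simpa using hu3
      rw [mem_betaNbr]
      refine ⟨hu4, ?_⟩
      rcases D.nbr_vals h hu4 with h4 | h4
      · exact h4
      · exact absurd hu2 (D.no_beta hR h hu4 h4 hz1 hz2)
    have hβb : β ≤ b := by
      rw [hβ', hb]
      exact_mod_cast Finset.card_le_card hsub
    refine ⟨hsub, ?_⟩
    have hβ0 : 0 ≤ β := by positivity
    have hK : (s + 1) * (β + 1 + q - a) = 2 * (β + 1 + q) := by
      subst hm
      linear_combination hrule - h1
    have he : 1 ≤ β + 1 + q - a := by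
      by_contra hlt
      push Not at hlt
      have : (s + 1) * (β + 1 + q - a) ≤ 0 :=
        mul_nonpos_of_nonneg_of_nonpos (by linarith) (by linarith)
      linarith
    rcases eq_or_lt_of_le he with he1 | he1
    · rw [← he1, mul_one] at hK
      linarith
    · exfalso
      have h5 : (s + 1) * 2 ≤ (s + 1) * (β + 1 + q - a) :=
        mul_le_mul_of_nonneg_left (by linarith) (by linarith)
      have h6 : s ≤ b + q := by linarith
      have h7 : (s - 1) * s ≤ (s - 1) * (b + q) :=
        mul_le_mul_of_nonneg_left h6 (by linarith)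
      linarith
  -- the value of j
  have hbq : 2 * (b + q) = s - 1 := by
    obtain ⟨e1, e2⟩ := D.deg_eq h
    obtain ⟨⟨z, hz1, hz2, hz3⟩, -⟩ := D.key1 h (hR _ _ h)
    obtain ⟨hz4, hz5⟩ := hz z hz1 hz2
    have hz6 : ((((G.neighborFinset v).erase z).filter fun u => M u z = s - 1).card : ℤ) ≤ b := by
      rw [hb]; exact_mod_cast Finset.card_le_card hz4
    have e1' : b + ((G.neighborFinset v).filter fun u => M v u = 0).card = G.degree v := e1
    set g : ℤ := (((G.neighborFinset v).filter fun u => M v u = 0).card : ℤ) with hg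
    obtain ⟨j, hj⟩ : ∃ j : ℤ, (G.degree v : ℤ) = m - 1 - j := ⟨m - 1 - G.degree v, by ring⟩
    rw [hj] at e1' e2
    have hr1 : 1 ≤ r := by omega
    have hrs : r ≤ b + q := by linarith
    have key : r * (b + q) = n * (r - j) + r * (2 * r - j) := by
      subst hm
      subst hr
      have e3 : g = n + (2 * r + 1) - 1 - j - b := by linarith
      rw [e3] at e2
      have e4 : 2 * (r * (b + q)) = 2 * (n * (r - j) + r * (2 * r - j)) := by
        linear_combination (-1) * e2 - h1
      linarith
    have hc : r * (b + q) + b ≤ n := by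
      subst hr
      linarith
    rcases lt_trichotomy j r with hjr | hjr | hjr
    · exfalso
      have h5 : n * 1 ≤ n * (r - j) := mul_le_mul_of_nonneg_left (by linarith) (by linarith)
      have h6 : 0 ≤ r * (2 * r - j) := mul_nonneg (by linarith) (by linarith)
      linarith
    · rw [hjr] at key
      have h5 : r * (b + q) = r * r := by linarith
      have h6 := mul_left_cancel₀ (by linarith : r ≠ 0) h5
      linarith
    · exfalso
      have h5 : n * (r - j) ≤ n * (-1) := mul_le_mul_of_nonneg_left (by linarith) (by linarith)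
      have h6 : r * (2 * r - j) ≤ r * (r - 1) :=
        mul_le_mul_of_nonneg_left (by linarith) (by linarith)
      have h7 : r * r ≤ r * (b + q) := mul_le_mul_of_nonneg_left hrs (by linarith)
      linarith
  refine ⟨q, hq0, by linarith, hbq, h2, hb1, ?_⟩
  intro z hz1 hz2 u hu
  obtain ⟨hz4, hz5⟩ := hz z hz1 hz2
  have hcard : (betaNbr G s M v).card
      ≤ (((G.neighborFinset v).erase z).filter fun u => M u z = s - 1).card := by
    have : b ≤ ((((G.neighborFinset v).erase z).filter fun u => M u z = s - 1).card : ℤ) := by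
      linarith
    rw [hb] at this
    exact_mod_cast this
  have heq := Finset.eq_of_subset_of_card_le hz4 hcard
  rw [← heq] at hu
  exact (mem_filter.1 hu).2

/-- the gamma neighbours of a mixed vertex are mixed with the same beta neighbours -/
lemma Data.beta_sub (D : Data G m n s M t)
    (hR : ∀ v x, Mixed G s M v x → (G.degree v : ℤ) ≤ m - 2)
    (hL : 2 * n < s * (s - 1)) (hodd : Odd s)
    {v x : V} (h : Mixed G s M v x) {z : V} (hz : G.Adj v z) (hz0 : M v z = 0) :
    betaNbr G s M v ⊆ betaNbr G s M z := by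
  have hs := D.hs
  obtain ⟨q, -, -, -, -, -, hall⟩ := D.odd_facts hR hL hodd h
  obtain ⟨y, hy, hty⟩ := D.gamma_nbr h hz hz0
  intro u hu
  have h1 := hall z hz hz0 u hu
  rw [D.symm] at h1
  exact mem_betaNbr.2 ⟨D.adj_of_pos h1 (by linarith), h1⟩

lemma Data.gamma_mixed (D : Data G m n s M t)
    (hR : ∀ v x, Mixed G s M v x → (G.degree v : ℤ) ≤ m - 2)
    (hL : 2 * n < s * (s - 1)) (hodd : Odd s)
    {v x : V} (h : Mixed G s M v x) {z : V} (hz : G.Adj v z) (hz0 : M v z = 0) :
    Mixed G s M z x ∧ betaNbr G s M z = betaNbr G s M v := by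
  obtain ⟨y, hy, hty⟩ := D.gamma_nbr h hz hz0
  have h1 := D.beta_sub hR hL hodd h hz hz0
  have h2 := mem_betaNbr.1 (h1 (mem_betaNbr.2 ⟨h.2.1, h.2.2⟩))
  have hm : Mixed G s M z x := ⟨⟨y, hy⟩, h2.1, h2.2⟩
  refine ⟨hm, Finset.Subset.antisymm ?_ h1⟩
  exact D.beta_sub hR hL hodd hm hz.symm (by rw [D.symm]; exact hz0)

/-- beta partners of a mixed vertex are neighbours -/
lemma Data.mem_of_beta (D : Data G m n s M t)
    (hR : ∀ v x, Mixed G s M v x → (G.degree v : ℤ) ≤ m - 2)
    {v x : V} (h : Mixed G s M v x) {y : V} (hy : M v y = s - 1) : y ∈ betaNbr G s M v := by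
  have hs := D.hs
  have h1 := D.t_pos h (hR _ _ h)
  exact mem_betaNbr.2 ⟨D.adj_of_pos hy (by linarith), hy⟩

/-- the mixed vertices with the same beta neighbours as `v` -/
def Cls (G : SimpleGraph V) [DecidableRel G.Adj] (s : ℤ) (M : V → V → ℤ) (v u : V) : Prop :=
  (∃ x, Mixed G s M u x) ∧ betaNbr G s M u = betaNbr G s M v

lemma Data.closure (D : Data G m n s M t)
    (hR : ∀ v x, Mixed G s M v x → (G.degree v : ℤ) ≤ m - 2)
    (hL : 2 * n < s * (s - 1)) (hodd : Odd s)
    {v u y : V} (hu : Cls G s M v u) (hy : G.Adj u y) : y ∈ betaNbr G s M v ∨ Cls G s M v y := by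
  obtain ⟨⟨x, hx⟩, hB⟩ := hu
  rcases D.nbr_vals hx hy with h | h
  · left; rw [← hB]; exact mem_betaNbr.2 ⟨hy, h⟩
  · right
    obtain ⟨h1, h2⟩ := D.gamma_mixed hR hL hodd hx hy h
    exact ⟨⟨x, h1⟩, h2.trans hB⟩

lemma Data.outside (D : Data G m n s M t)
    (hR : ∀ v x, Mixed G s M v x → (G.degree v : ℤ) ≤ m - 2)
    (hL : 2 * n < s * (s - 1)) (hodd : Odd s)
    {v u ω : V} (hu : Cls G s M v u) (hω1 : ω ∉ betaNbr G s M v) (hω2 : ¬ Cls G s M v ω) :
    M u ω = -(s + 1) := by
  have hs := D.hs
  have hn := D.hn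
  obtain ⟨⟨x, hx⟩, hB⟩ := id hu
  have hne : u ≠ ω := by rintro rfl; exact hω2 hu
  rcases D.vals u ω hne with h | h | h
  · exfalso
    apply hω1; rw [← hB]; exact D.mem_of_beta hR hx h
  · exfalso
    obtain ⟨q, hq0, -, -, h2, h3, -⟩ := D.odd_facts hR hL hodd hx
    have h1 := D.rule u ω
    rw [if_neg hne, h] at h1
    have h4 : ∑ y ∈ G.neighborFinset u, M y ω
        ≤ ∑ y ∈ G.neighborFinset u, if M u y = s - 1 then s - 1 else 0 := by
      apply Finset.sum_le_sum
      intro y hy
      have hy' : G.Adj u y := by simpa using hy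
      have hyω : y ≠ ω := by
        rintro rfl
        rcases D.closure hR hL hodd hu hy' with h5 | h5
        · exact hω1 h5
        · exact hω2 h5
      by_cases h5 : M u y = s - 1
      · rw [if_pos h5]
        have := D.upper hyω
        linarith
      · rw [if_neg h5]
        have h6 : M u y = 0 := (D.nbr_vals hx hy').resolve_left h5
        obtain ⟨h7, h8⟩ := D.gamma_mixed hR hL hodd hx hy' h6
        rcases D.vals y ω hyω with h9 | h9 | h9
        · exfalso
          apply hω1; rw [← hB, ← h8]; exact D.mem_of_beta hR h7 h9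
        · exact h9.le
        · rw [h9]; linarith
    rw [h1, ← Finset.sum_filter, Finset.sum_const, nsmul_eq_mul] at h4
    have h5 : ((G.neighborFinset u).filter fun y => M u y = s - 1) = betaNbr G s M u := rfl
    rw [h5] at h4
    linarith
  · exact h

lemma Data.outside_beta (D : Data G m n s M t)
    (hR : ∀ v x, Mixed G s M v x → (G.degree v : ℤ) ≤ m - 2)
    (hL : 2 * n < s * (s - 1)) (hodd : Odd s)
    {v x ω : V} (hv : Mixed G s M v x) (hω1 : ω ∉ betaNbr G s M v) (hω2 : ¬ Cls G s M v ω) :
    ∀ x' ∈ betaNbr G s M v, M x' ω = s - 1 := by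
  have hs := D.hs
  have hn := D.hn
  obtain ⟨⟨z, hz1, hz2, hz3⟩, -⟩ := D.key1 hv (hR _ _ hv)
  obtain ⟨y, hy1, hy2⟩ := D.gamma_nbr' hv hz1 hz2
  have hcv : Cls G s M v v := ⟨⟨x, hv⟩, rfl⟩
  obtain ⟨hzm, hzB⟩ := D.gamma_mixed hR hL hodd hv hz1 hz2
  have hcz : Cls G s M v z := ⟨⟨x, hzm⟩, hzB⟩
  have hyc : Cls G s M v y := by
    rcases D.closure hR hL hodd hcv hy1 with h | h
    · exfalso
      obtain ⟨h1, h2⟩ := mem_betaNbr.1 h
      have hmy : Mixed G s M v y := ⟨hv.1, h1, h2⟩
      exact D.no_alpha hR hmy z (by rw [D.symm]; exact hy2)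
    · exact h
  have hzω := D.outside hR hL hodd hcz hω1 hω2
  -- compare the two expressions of `t z`
  have e1 := D.sum_alpha hy2
  have e2 := D.sum_alpha hzω
  have hyB : ∀ x' ∈ betaNbr G s M v, M x' y = s - 1 := by
    intro x' hx'
    rw [← hyc.2] at hx'
    rw [D.symm]
    exact (mem_betaNbr.1 hx').2
  -- lower bound for the first
  have h1 : ∑ u ∈ G.neighborFinset z, (if M z u = s - 1 then 2 * s else 0) ≤ t z := by
    rw [← e1]
    apply Finset.sum_le_sum
    intro u hu
    have hu' : G.Adj z u := by simpa using hu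
    by_cases h5 : M z u = s - 1
    · rw [if_pos h5]
      have : u ∈ betaNbr G s M v := by rw [← hzB]; exact mem_betaNbr.2 ⟨hu', h5⟩
      rw [hyB u this]; linarith
    · rw [if_neg h5]; exact D.lower u y
  have h2 : ∀ u ∈ G.neighborFinset z, M u ω + (s + 1) ≤ if M z u = s - 1 then 2 * s else 0 := by
    intro u hu
    have hu' : G.Adj z u := by simpa using hu
    have huω : u ≠ ω := by
      rintro rfl
      rcases D.closure hR hL hodd hcz hu' with h5 | h5
      · exact hω1 h5
      · exact hω2 h5
    by_cases h5 : M z u = s - 1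
    · rw [if_pos h5]
      have := D.upper huω
      linarith
    · rw [if_neg h5]
      have h6 : M z u = 0 := (D.nbr_vals hzm hu').resolve_left h5
      obtain ⟨h7, h8⟩ := D.gamma_mixed hR hL hodd hzm hu' h6
      have h9 : Cls G s M v u := ⟨⟨x, h7⟩, h8.trans hzB⟩
      rw [D.outside hR hL hodd h9 hω1 hω2]; linarith
  have h3 : ∑ u ∈ G.neighborFinset z, (M u ω + (s + 1))
      = ∑ u ∈ G.neighborFinset z, (if M z u = s - 1 then 2 * s else 0) :=
    le_antisymm (Finset.sum_le_sum h2) (by rw [e2]; exact h1)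
  have h4 := (Finset.sum_eq_sum_iff_of_le h2).1 h3
  intro x' hx'
  rw [← hzB] at hx'
  obtain ⟨h5, h6⟩ := mem_betaNbr.1 hx'
  have h7 := h4 x' (by simpa using h5)
  rw [if_pos h6] at h7
  linarith

/-- every vertex is in the class of `v` or a beta neighbour of `v` -/
lemma Data.cover (D : Data G m n s M t) (hG : G.Preconnected)
    (hR : ∀ v x, Mixed G s M v x → (G.degree v : ℤ) ≤ m - 2)
    (hL : 2 * n < s * (s - 1)) (hodd : Odd s)
    {v x : V} (hv : Mixed G s M v x) (ω : V) : ω ∈ betaNbr G s M v ∨ Cls G s M v ω := by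
  by_contra hcon
  rw [not_or] at hcon
  obtain ⟨p⟩ := hG ω v
  obtain ⟨d, -, hd1, hd2⟩ := p.exists_boundary_dart
    {u | u ∉ betaNbr G s M v ∧ ¬ Cls G s M v u} hcon (by
      rintro ⟨-, h2⟩
      exact h2 ⟨⟨x, hv⟩, rfl⟩)
  have hadj : G.Adj d.fst d.snd := d.adj
  set y := d.fst with hy
  set x' := d.snd with hx'
  have hxB : x' ∈ betaNbr G s M v := by
    by_contra hx1
    have hx2 : Cls G s M v x' := by
      by_contra hx2
      exact hd2 ⟨hx1, hx2⟩
    rcases D.closure hR hL hodd hx2 hadj.symm with h | h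
    · exact hd1.1 h
    · exact hd1.2 h
  have hcv : Cls G s M v v := ⟨⟨x, hv⟩, rfl⟩
  have hα := D.outside hR hL hodd hcv hd1.1 hd1.2
  have hβ := D.outside_beta hR hL hodd hv hd1.1 hd1.2
  have hym : Mixed G s M y x' :=
    ⟨⟨v, by rw [D.symm]; exact hα⟩, hadj, by rw [D.symm]; exact hβ x' hxB⟩
  have hsub : betaNbr G s M v ⊆ betaNbr G s M y := by
    intro u hu
    exact D.mem_of_beta hR hym (by rw [D.symm]; exact hβ u hu)
  by_cases hc : Cls G s M y v
  · exact hd1.2 ⟨⟨x', hym⟩, hc.2.symm⟩
  · have hvB : v ∉ betaNbr G s M y := by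
      intro hvB
      obtain ⟨h1, h2⟩ := mem_betaNbr.1 hvB
      have hmv : Mixed G s M y v := ⟨hym.1, h1, h2⟩
      obtain ⟨w, hw⟩ := hv.1
      exact D.no_alpha hR hmv w hw
    have hβ' := D.outside_beta hR hL hodd hym hvB hc
    have hsub' : betaNbr G s M y ⊆ betaNbr G s M v := by
      intro u hu
      exact D.mem_of_beta hR hv (by rw [D.symm]; exact hβ' u hu)
    exact hd1.2 ⟨⟨x', hym⟩, Finset.Subset.antisymm hsub' hsub⟩

lemma Data.sum_t (D : Data G m n s M t) (w : V) : ∑ v, t v = 2 * m * n := by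
  have h1 : ∑ v, ∑ u ∈ G.neighborFinset v, M u w
      = ∑ v, ((G.degree v : ℤ) * M v w + t v - (if v = w then 2 * m * n else 0)) :=
    Finset.sum_congr rfl fun v _ => D.rule v w
  have h2 : ∑ v, ∑ u ∈ G.neighborFinset v, M u w = ∑ u, (G.degree u : ℤ) * M u w := by
    rw [Finset.sum_comm' (s := univ) (t := fun v => G.neighborFinset v) (t' := univ)
      (s' := fun u => G.neighborFinset u) (by
        intro x y
        simp [G.adj_comm])]
    apply Finset.sum_congr rfl
    intro u _
    rw [Finset.sum_const, G.card_neighborFinset_eq_degree, nsmul_eq_mul]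
  rw [h2, Finset.sum_sub_distrib, Finset.sum_add_distrib, Finset.sum_ite_eq' univ w,
    if_pos (mem_univ _)] at h1
  linarith

/-- there are no mixed vertices when `s` is odd and `s (s - 1) > 2 n` -/
lemma Data.large_odd (D : Data G m n s M t) (hG : G.Preconnected)
    (hcard : (Fintype.card V : ℤ) = m + n)
    (hβ : (((univ : Finset V).offDiag.filter fun p => M p.1 p.2 = s - 1).card : ℤ) = n * n - n)
    (hL : 2 * n < s * (s - 1)) (hodd : Odd s)
    {v x : V} (h : Mixed G s M v x) : False := by
  have hs := D.hs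
  have hn := D.hn
  have hm := D.hm
  have hR : ∀ v x, Mixed G s M v x → (G.degree v : ℤ) ≤ m - 2 :=
    fun v x h => D.deg_le hβ hL h
  obtain ⟨q, hq0, ht, hbq, h2, hb1, -⟩ := D.odd_facts hR hL hodd h
  have htle := D.t_le h
  set B := betaNbr G s M v with hB
  set b : ℤ := (B.card : ℤ) with hb
  have hcover := D.cover hG hR hL hodd h
  have hout : ((univ \ B : Finset V).card : ℤ) = m + n - b := by
    rw [Finset.card_sdiff_of_subset (Finset.subset_univ _), Finset.card_univ,
      Nat.cast_sub (Finset.card_le_univ _), hcard]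
  have hcls : ∀ u ∈ (univ \ B : Finset V), Cls G s M v u := by
    intro u hu
    rw [mem_sdiff] at hu
    exact (hcover u).resolve_left hu.2
  have ht1 : ∀ u ∈ (univ \ B : Finset V), t u = 2 * n - (s - 1) * q := by
    intro u hu
    obtain ⟨⟨y, hy⟩, hBu⟩ := hcls u hu
    obtain ⟨q', -, ht', hbq', -, -, -⟩ := D.odd_facts hR hL hodd hy
    rw [hBu] at hbq'
    have : q' = q := by linarith
    rw [ht', this]
  have hdeg : ∀ y ∈ B, m + n - b ≤ (G.degree y : ℤ) := by
    intro y hy
    rw [← hout, ← G.card_neighborFinset_eq_degree]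
    have : (univ \ B : Finset V) ⊆ G.neighborFinset y := by
      intro u hu
      have hcu := (hcls u hu).2
      have hyu : y ∈ betaNbr G s M u := by rw [hcu]; exact hy
      have := (mem_betaNbr.1 hyu).1
      rw [SimpleGraph.mem_neighborFinset]
      exact this.symm
    exact_mod_cast Finset.card_le_card this
  have ht2 : ∀ y ∈ B, t y ≤ 2 * m * n - 2 * n * (m + n - b) := by
    intro y hy
    have h3 := D.rule y y
    rw [if_pos rfl, D.diag] at h3
    have h4 : ∑ u ∈ G.neighborFinset y, M u y ≤ ∑ u ∈ G.neighborFinset y, (s - 1) := by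
      apply Finset.sum_le_sum
      intro u hu
      have hu' : G.Adj y u := by simpa using hu
      have := D.upper (G.ne_of_adj hu').symm
      linarith
    rw [Finset.sum_const, G.card_neighborFinset_eq_degree, nsmul_eq_mul, h3] at h4
    have h5 := hdeg y hy
    have h6 : 2 * n * (m + n - b) ≤ 2 * n * (G.degree y : ℤ) :=
      mul_le_mul_of_nonneg_left h5 (by linarith)
    have h7 : (G.degree y : ℤ) * (m + n - 1) = (G.degree y : ℤ) * (s - 1)
        + 2 * n * (G.degree y : ℤ) := by rw [hm]; ring
    linarith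
  have hsum := D.sum_t v
  rw [← Finset.sum_sdiff (Finset.subset_univ B), Finset.sum_congr rfl ht1, Finset.sum_const,
    nsmul_eq_mul, hout] at hsum
  have hsumB : ∑ y ∈ B, t y ≤ b * (2 * m * n - 2 * n * (m + n - b)) := by
    have := Finset.sum_le_card_nsmul B t (2 * m * n - 2 * n * (m + n - b)) ht2
    rw [nsmul_eq_mul] at this
    exact this
  obtain ⟨r, hr⟩ := hodd
  have hs3 : 3 ≤ s := by omega
  have hbn : 2 * b ≤ n := by
    have : 4 * b ≤ (s + 1) * b := mul_le_mul_of_nonneg_right (by linarith) (by linarith)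
    linarith
  have hmain : (m + n - b) * ((s - 1) * q) ≤ 2 * n * (n - b) * (1 - b) := by
    have e : b * (2 * m * n - 2 * n * (m + n - b)) + (m + n - b) * (2 * n - (s - 1) * q)
        - 2 * m * n = 2 * n * (n - b) * (1 - b) - (m + n - b) * ((s - 1) * q) := by ring
    linarith
  have hpos1 : 0 ≤ (m + n - b) * ((s - 1) * q) :=
    mul_nonneg (by linarith) (mul_nonneg (by linarith) hq0)
  have hb2 : b = 1 := by
    by_contra hb2
    have hb3 : 2 ≤ b := by omega
    have h3 : 0 < 2 * n * (n - b) := mul_pos (by linarith) (by linarith)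
    have h4 : 2 * n * (n - b) * (1 - b) < 0 := mul_neg_of_pos_of_neg h3 (by linarith)
    linarith
  rw [hb2] at hmain hpos1 hbq
  have hq1 : q = 0 := by
    by_contra hq1
    have hq2 : 1 ≤ q := by omega
    have h3 : 0 < (m + n - 1) * ((s - 1) * q) :=
      mul_pos (by linarith) (mul_pos (by linarith) (by linarith))
    linarith
  have hs3' : s = 3 := by omega
  subst hs3'
  have hn2 : n = 2 := by omega
  have key := count_lower hβ (fun u x h => D.ne_of_beta h) {x} (m + n - 1) (by
    intro x' hx'
    rw [mem_singleton] at hx'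
    subst hx'
    have hxB : x' ∈ B := mem_betaNbr.2 ⟨h.2.1, h.2.2⟩
    have e : m + n - 1 = ((univ \ B : Finset V).card : ℤ) := by rw [hout, hb2]
    rw [e]
    have : (univ \ B : Finset V) ⊆ (univ : Finset V).filter fun u => M u x' = 3 - 1 := by
      intro u hu
      have hcu := (hcls u hu).2
      have hyu : x' ∈ betaNbr G 3 M u := by rw [hcu]; exact hxB
      rw [mem_filter]
      exact ⟨mem_univ _, (mem_betaNbr.1 hyu).2⟩
    exact_mod_cast Finset.card_le_card this)
  rw [card_singleton] at key
  rw [hm, hn2] at key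
  norm_num at key

/-- there are no mixed vertices when `s (s - 1) > 2 n` -/
lemma Data.large' (D : Data G m n s M t) (hG : G.Preconnected)
    (hcard : (Fintype.card V : ℤ) = m + n)
    (hβ : (((univ : Finset V).offDiag.filter fun p => M p.1 p.2 = s - 1).card : ℤ) = n * n - n)
    (hL : 2 * n < s * (s - 1)) {v x : V} (h : Mixed G s M v x) : False := by
  rcases Int.even_or_odd s with hs | hs
  · exact D.large hβ hL (Or.inl hs) h
  · exact D.large_odd hG hcard hβ hL hs h

end

end Pool.Agent.H88.RS
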