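import Pool.Agent.H88.RS.Det
import Pool.Agent.H88.RS.Odd

set_option autoImplicit false

namespace Pool.Agent.H88.RS

lemma determined_of_large' {m n : ℕ} (hn : 2 ≤ n) (h : n + 2 ≤ m)
    (hL : 2 * n < (m - n) * (m - n - 1)) :
    Determined (completeBipartiteGraph (Fin m) (Fin n)) := by
  intro W _ H hH hsp
  classical
  obtain ⟨M, t, D, hcard, hα, hβ⟩ := exists_data hH hn h hsp
  have e1 : ((m - n : ℕ) : ℤ) = (m : ℤ) - n := by push_cast [show n ≤ m by omega]; ring
  have e2 : ((m - n - 1 : ℕ) : ℤ) = (m : ℤ) - n - 1 := by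
    push_cast [show n ≤ m by omega, show 1 ≤ m - n by omega]; ring
  have hL' : 2 * (n : ℤ) < ((m : ℤ) - n) * (((m : ℤ) - n) - 1) := by
    rw [← e2, ← e1]; exact_mod_cast hL
  obtain ⟨A, hA, hadj⟩ := D.final hcard hα hβ (by
    intro v w w' h1 h2
    obtain ⟨v', ha, -, h3, h4⟩ := D.exists_adj hH.preconnected h1 h2
    exact D.large' hH.preconnected hcard hβ hL' (v := v') (x := w') ⟨⟨w, h3⟩, ha, h4⟩)
  exact iso_of_set hcard hA hadj

end Pool.Agent.H88.RS
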