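import Mathlib

set_option autoImplicit false

namespace Pool.Agent.H88.RS

open Finset Matrix

/-- `x` is a voltage for the current which sends one ampere from `u` to `v` through the network
of the graph `G` in which each edge is a resistor of one ohm. -/
def IsVoltage {V : Type*} [Fintype V] (G : SimpleGraph V) (u v : V) (x : V → ℝ) : Prop :=
  open Classical in
  ∀ w, ∑ y, (if G.Adj w y then x w - x y else 0)
    = (if w = u then 1 else 0) - (if w = v then 1 else 0)

/-- The effective resistance (resistance distance) between `u` and `v`. -/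
noncomputable def resistance {V : Type*} [Fintype V] (G : SimpleGraph V) (u v : V) : ℝ :=
  sSup {r | ∃ x, IsVoltage G u v x ∧ r = x u - x v}

section
variable {V : Type*} [Fintype V] [DecidableEq V] {G : SimpleGraph V} [DecidableRel G.Adj]

lemma lap_apply (x : V → ℝ) (w : V) :
    (G.lapMatrix ℝ *ᵥ x) w = ∑ y ∈ G.neighborFinset w, (x w - x y) := by
  rw [G.lapMatrix_mulVec_apply, Finset.sum_sub_distrib, Finset.sum_const,
    G.card_neighborFinset_eq_degree, nsmul_eq_mul]

lemma isVoltage_iff (u v : V) (x : V → ℝ) :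
    IsVoltage G u v x ↔ ∀ w, (G.lapMatrix ℝ *ᵥ x) w
      = (if w = u then 1 else 0) - (if w = v then 1 else 0) := by
  unfold IsVoltage
  refine forall_congr' fun w => ?_
  rw [lap_apply, G.neighborFinset_eq_filter, Finset.sum_filter]
  constructor <;> intro h <;> convert h

lemma voltage_unique (hG : G.Connected) {u v : V} {x y : V → ℝ} (hx : IsVoltage G u v x)
    (hy : IsVoltage G u v y) : x u - x v = y u - y v := by
  rw [isVoltage_iff] at hx hy
  have h : G.lapMatrix ℝ *ᵥ (x - y) = 0 := by
    ext w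
    rw [Matrix.mulVec_sub, Pi.sub_apply, hx, hy, sub_self]; rfl
  rw [G.lapMatrix_mulVec_eq_zero_iff_forall_reachable] at h
  have := h u v (hG.preconnected u v)
  simp only [Pi.sub_apply] at this
  linarith

lemma resistance_eq (hG : G.Connected) {u v : V} {x : V → ℝ} (hx : IsVoltage G u v x) :
    resistance G u v = x u - x v := by
  unfold resistance
  have : {r | ∃ x, IsVoltage G u v x ∧ r = x u - x v} = {x u - x v} := by
    ext r
    simp only [Set.mem_ofPred_eq, Set.mem_singleton_iff]
    constructor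
    · rintro ⟨y, hy, rfl⟩
      exact voltage_unique hG hy hx
    · rintro rfl
      exact ⟨x, hx, rfl⟩
  rw [this, csSup_singleton]

/-- Green's function -/
lemma exists_green (hG : G.Connected) : ∃ Q : V → V → ℝ, (∀ u v, Q u v = Q v u) ∧
    ∀ v w, ∑ y ∈ G.neighborFinset v, (Q v w - Q y w)
      = (if v = w then 1 else 0) - 1 / (Fintype.card V : ℝ) := by
  have := hG.nonempty
  set A : Matrix V V ℝ := G.lapMatrix ℝ + Matrix.of (fun _ _ => (1 : ℝ)) with hA
  have hAx : ∀ x : V → ℝ, ∀ w, (A *ᵥ x) w = (G.lapMatrix ℝ *ᵥ x) w + ∑ y, x y := by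
    intro x w
    rw [hA, Matrix.add_mulVec, Pi.add_apply]
    congr 1
    simp [Matrix.mulVec, dotProduct]
  have hsymL : (G.lapMatrix ℝ)ᵀ = G.lapMatrix ℝ := (G.isSymm_lapMatrix (R := ℝ)).eq
  have hsumL : ∀ x : V → ℝ, ∑ w, (G.lapMatrix ℝ *ᵥ x) w = 0 := by
    intro x
    have h1 : ∑ w, (G.lapMatrix ℝ *ᵥ x) w = (fun _ => (1 : ℝ)) ⬝ᵥ (G.lapMatrix ℝ *ᵥ x) := by
      simp [dotProduct]
    rw [h1, Matrix.dotProduct_mulVec, ← Matrix.mulVec_transpose, hsymL,
      G.lapMatrix_mulVec_const_eq_zero, zero_dotProduct]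
  have hN : (Fintype.card V : ℝ) ≠ 0 := by exact_mod_cast Fintype.card_ne_zero
  have hinj : Function.Injective A.mulVec := by
    rw [← Matrix.coe_mulVecLin, injective_iff_map_eq_zero]
    intro x hx
    rw [Matrix.mulVecLin_apply] at hx
    have h1 : ∀ w, (G.lapMatrix ℝ *ᵥ x) w + ∑ y, x y = 0 := by
      intro w; rw [← hAx, hx]; rfl
    have h2 : ∑ y, x y = 0 := by
      have h3 := Finset.sum_congr rfl fun (w : V) (_ : w ∈ univ) => h1 w
      rw [Finset.sum_add_distrib, hsumL, Finset.sum_const, zero_add, nsmul_eq_mul,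
        Finset.sum_const_zero, Finset.card_univ] at h3
      exact (mul_eq_zero.1 h3).resolve_left hN
    have h4 : G.lapMatrix ℝ *ᵥ x = 0 := by
      ext w
      have := h1 w
      rw [h2, add_zero] at this
      exact this
    rw [G.lapMatrix_mulVec_eq_zero_iff_forall_reachable] at h4
    ext w
    have h5 : ∀ y, x y = x w := fun y => h4 y w (hG.preconnected y w)
    rw [Finset.sum_congr rfl fun y _ => h5 y, Finset.sum_const, nsmul_eq_mul,
      Finset.card_univ] at h2
    exact (mul_eq_zero.1 h2).resolve_left hN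
  have hunit : IsUnit A := Matrix.mulVec_injective_iff_isUnit.1 hinj
  have hdet : IsUnit A.det := (Matrix.isUnit_iff_isUnit_det A).1 hunit
  have hAQ : A * A⁻¹ = 1 := Matrix.mul_nonsing_inv A hdet
  have hAsym : Aᵀ = A := by
    rw [hA, Matrix.transpose_add, hsymL]; rfl
  have hQsym : (A⁻¹)ᵀ = A⁻¹ := by rw [Matrix.transpose_nonsing_inv, hAsym]
  have hcol : ∀ w, (fun y => A⁻¹ y w) = A⁻¹ *ᵥ (Pi.single w 1) := by
    intro w; ext y; simp
  have hAcol : ∀ v w, (A *ᵥ (fun y => A⁻¹ y w)) v = if v = w then 1 else 0 := by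
    intro v w
    have : (A * A⁻¹) v w = (1 : Matrix V V ℝ) v w := by rw [hAQ]
    rw [Matrix.one_apply] at this
    rw [← this]; rfl
  have hsum : ∀ w, ∑ y, A⁻¹ y w = 1 / (Fintype.card V : ℝ) := by
    intro w
    have h1 : ∑ v, (A *ᵥ (fun y => A⁻¹ y w)) v = 1 := by
      rw [Finset.sum_congr rfl fun v _ => hAcol v w]; simp
    have h2 : ∑ v, (A *ᵥ (fun y => A⁻¹ y w)) v = (Fintype.card V : ℝ) * ∑ y, A⁻¹ y w := by
      rw [Finset.sum_congr rfl fun v _ => hAx _ v, Finset.sum_add_distrib, hsumL, zero_add,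
        Finset.sum_const, nsmul_eq_mul, Finset.card_univ]
    rw [h2] at h1
    field_simp
    linarith
  refine ⟨fun u v => A⁻¹ u v, ?_, ?_⟩
  · intro u v
    have := congrFun (congrFun hQsym v) u
    rw [Matrix.transpose_apply] at this
    exact this
  · intro v w
    have h1 := hAcol v w
    rw [hAx, hsum, lap_apply] at h1
    linarith

/-- the local sum rules -/
lemma exists_rule (hG : G.Connected) : (∀ u v, resistance G u v = resistance G v u) ∧
    (∀ u, resistance G u u = 0) ∧ ∃ τ : V → ℝ,
    ∀ v w, ∑ y ∈ G.neighborFinset v, (resistance G v w - resistance G y w)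
      = τ v - (if v = w then 2 else 0) := by
  obtain ⟨Q, hsym, hQ⟩ := exists_green hG
  have hR : ∀ u v, resistance G u v = Q u u + Q v v - 2 * Q u v := by
    intro u v
    have : IsVoltage G u v (fun y => Q y u - Q y v) := by
      rw [isVoltage_iff]
      intro w
      rw [lap_apply]
      have h1 := hQ w u
      have h2 := hQ w v
      have : ∑ y ∈ G.neighborFinset w, (Q w u - Q w v - (Q y u - Q y v))
        = ∑ y ∈ G.neighborFinset w, (Q w u - Q y u)
          - ∑ y ∈ G.neighborFinset w, (Q w v - Q y v) := by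
        rw [← Finset.sum_sub_distrib]
        exact Finset.sum_congr rfl fun y _ => by ring
      rw [this, h1, h2]; ring
    rw [resistance_eq hG this, hsym v u]; ring
  refine ⟨fun u v => by rw [hR, hR, hsym u v]; ring, fun u => by rw [hR]; ring,
    fun v => ∑ y ∈ G.neighborFinset v, (Q v v - Q y y) + 2 / (Fintype.card V : ℝ), ?_⟩
  intro v w
  have h1 := hQ v w
  have : ∑ y ∈ G.neighborFinset v, (resistance G v w - resistance G y w)
      = ∑ y ∈ G.neighborFinset v, (Q v v - Q y y)
        - 2 * ∑ y ∈ G.neighborFinset v, (Q v w - Q y w) := by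
    rw [Finset.mul_sum, ← Finset.sum_sub_distrib]
    exact Finset.sum_congr rfl fun y _ => by rw [hR, hR]; ring
  rw [this, h1]
  split_ifs <;> ring

end

end Pool.Agent.H88.RS
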